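import Pool.Agent.TH167.TT.HH9
import Pool.Agent.TH167.SH.Fam
import Pool.Agent.TH167.SH.Segre2

set_option autoImplicit false

/-!
# At most nine multiplicities larger than two: translations
-/

namespace Pool.Agent.TH167.TT

open MvPolynomial Pool.Agent.W609 Pool.Agent.W609.CR Pool.Agent.TH167.SH

theorem notMem_filter {s : ℕ} {w : Fin s → ℕ} : ∀ j : Fin s,
    j ∉ (Finset.univ.filter fun i => 2 < w i) → w j ≤ 2 := by
  intro j hj
  rw [Finset.mem_filter] at hj
  push Not at hj
  exact hj (Finset.mem_univ j)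

/-- Generic points are distinct; the polynomial. -/
theorem inj_fam (s : ℕ) : ∃ F' : MvPolynomial (Fin s × Fin 2) ℚ, F' ≠ 0 ∧
    ∀ (K : Type) [Field K] [CharZero K] (P : Fin s → Fin 2 → K), evP P F' ≠ 0 →
      Function.Injective P := by
  classical
  refine ⟨∏ ij ∈ Finset.univ.filter (fun ij : Fin s × Fin s => ij.1 ≠ ij.2),
    (X (ij.1, 0) - X (ij.2, 0)), ?_, ?_⟩
  · refine Finset.prod_ne_zero_iff.2 fun ij hij => ?_
    rw [Finset.mem_filter] at hij
    intro h
    rw [sub_eq_zero] at h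
    have := MvPolynomial.X_injective h
    exact hij.2 (congrArg Prod.fst this)
  · intro K _ _ P hP i j hij
    by_contra hne
    unfold evP at hP
    rw [map_prod] at hP
    have h1 := Finset.prod_ne_zero_iff.1 hP (i, j) (Finset.mem_filter.2 ⟨Finset.mem_univ _, hne⟩)
    apply h1
    show aeval (fun ij : Fin s × Fin 2 => P ij.1 ij.2) (X (i, 0) - X (j, 0)) = 0
    rw [map_sub, aeval_X, aeval_X]
    show P i 0 - P j 0 = 0
    rw [hij, sub_self]

/-- The statement for general points. -/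
theorem hh9_conv {r : ℕ} (d : ℕ) (w : Fin (r + 4) → ℕ)
    (hw : (Finset.univ.filter fun i => 2 < w i).card ≤ 9) :
    ∃ F : MvPolynomial (Fin (r + 4) × Fin 2) ℂ, F ≠ 0 ∧
      ∀ P : Fin (r + 4) → Fin 2 → ℂ,
        MvPolynomial.eval (fun ij : Fin (r + 4) × Fin 2 => P ij.1 ij.2) F ≠ 0 →
          Function.Injective P ∧ (SHDefs.Special P d w ↔ SHDefs.MinusOneSpecial P d w) := by
  classical
  obtain ⟨F, hF, h⟩ := hh9 d w _ hw notMem_filter
  obtain ⟨F', hF', h'⟩ := inj_fam (r + 4)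
  refine ⟨(F * F').map (algebraMap ℚ ℂ), map_ne (mul_ne_zero hF hF'), fun P hP => ?_⟩
  rw [evP_eval, map_mul] at hP
  refine ⟨h' ℂ P (right_ne_zero_of_mul hP), ?_⟩
  rw [special_conv, mspecial_conv]
  exact ⟨h ℂ P (left_ne_zero_of_mul hP), fun h1 => h1.special⟩

/-- The statement for generic points over any field of characteristic zero. -/
theorem hh9_gen {K : Type} [Field K] [CharZero K] {r : ℕ} {P : Fin (r + 4) → Fin 2 → K}
    (hP : AlgebraicIndependent ℚ (fun ij : Fin (r + 4) × Fin 2 => P ij.1 ij.2)) (d : ℕ)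
    (w : Fin (r + 4) → ℕ) (hw : (Finset.univ.filter fun i => 2 < w i).card ≤ 9) :
    SHDefs.Special P d w ↔ SHDefs.MinusOneSpecial P d w := by
  obtain ⟨F, hF, h⟩ := hh9 d w _ hw notMem_filter
  rw [special_conv, mspecial_conv]
  exact ⟨h K P (evP_ne hP hF), fun h1 => h1.special⟩

end Pool.Agent.TH167.TT
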