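import Pool.Agent.TH167.TT.Move

set_option autoImplicit false

/-!
# Double points of a rigid reduced curve
-/

namespace Pool.Agent.TH167.TT

open MvPolynomial Pool.Agent.W609 Pool.Agent.W609.CR Pool.Agent.TH167.SH Pool.Agent.H248R5
  Pool.Agent.H248R6

theorem pd_shift {K : Type} [Field K] (v : Fin 3 → K) (l : Fin 3) (f : MvPolynomial (Fin 3) K) :
    pderiv l (shift (n := 2) v f) = shift (n := 2) v (pderiv l f) := by
  induction f using MvPolynomial.induction_on with
  | C c => simp [shift]
  | add f g hf hg => rw [map_add, map_add, map_add, map_add, hf, hg]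
  | mul_X f i hf =>
    rw [map_mul, Derivation.leibniz, Derivation.leibniz, map_add, smul_eq_mul, smul_eq_mul,
      smul_eq_mul, smul_eq_mul, map_mul, map_mul, hf]
    congr 2
    by_cases hi : i = l
    · subst hi
      simp [shift]
    · simp [shift, pderiv_X, hi]

theorem van_two {K : Type} [Field K] {v : Fin 3 → K} {f : MvPolynomial (Fin 3) K}
    (h0 : eval v f = 0) (h1 : ∀ l, eval v (pderiv l f) = 0) : Van v 2 f := by
  classical
  have e0 : ∀ g : MvPolynomial (Fin 3) K, coeff 0 (shift (n := 2) v g) = eval v g := by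
    intro g
    have h : (constantCoeff (σ := Fin 3) (R := K)).comp
        (shift (n := 2) v : MvPolynomial (Fin 3) K →ₐ[K] MvPolynomial (Fin 3) K).toRingHom =
        eval v := by
      apply MvPolynomial.ringHom_ext
      · intro c
        simp [shift]
      · intro i
        simp [shift]
    exact DFunLike.congr_fun h g
  unfold Van
  rw [mem_ker_pow_iff (n := 2)]
  intro b hb
  by_cases hb0 : b = 0
  · rw [hb0, e0, h0]
  · have hb1 : b.degree = 1 := by
      have : b.degree ≠ 0 := by
        rw [Ne, Finsupp.degree_eq_zero_iff]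
        exact hb0
      omega
    have hb2 : b ∈ Set.range (fun a : Fin 3 ↦ Finsupp.single a 1) := by
      rw [Finsupp.range_single_one]
      exact hb1
    obtain ⟨l, rfl⟩ := hb2
    have h2 := congrArg (coeff 0) (pd_shift v l f)
    rw [e0, h1, coeff_pderiv] at h2
    simpa using h2

/-- A simple point of a curve: the gradient in the affine coordinates is not zero. -/
theorem grad_ne {K : Type} [Field K] {p : Fin 2 → K} {f : MvPolynomial (Fin 3) K} {d : ℕ}
    (hf : f.IsHomogeneous d) (h : Ord (aff p) 1 f) :
    ∃ b : Fin 2, eval (aff p) (pderiv (Fin.castSucc b) f) ≠ 0 := by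
  by_contra hcon
  push Not at hcon
  have h0 := (TT.van_one).1 h.1
  refine h.2 (van_two h0 fun l => ?_)
  have h2 := congrArg (eval (aff p)) hf.sum_X_mul_pderiv
  rw [Fin.sum_univ_three] at h2
  have e0 : eval (aff p) (pderiv 0 f) = 0 := hcon 0
  have e1 : eval (aff p) (pderiv 1 f) = 0 := hcon 1
  have haff2 : aff p 2 = 1 := rfl
  simp only [map_add, map_mul, eval_X, e0, e1, mul_zero, zero_add, haff2, one_mul, map_nsmul, h0,
    smul_zero] at h2
  fin_cases l
  · exact e0
  · exact e1
  · exact h2

theorem sum_der {K : Type} [Field K] [CharZero K] {ι : Type} [DecidableEq ι] (A : Finset ι)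
    (a : ι → K) (D : ι → Derivation ℚ K K) (y : K) :
    (∑ x ∈ A, a x • D x) y = ∑ x ∈ A, a x * D x y := by
  induction A using Finset.induction_on with
  | empty => simp
  | insert x A hx ih => rw [Finset.sum_insert hx, Finset.sum_insert hx, Derivation.add_apply, ih,
      Derivation.smul_apply, smul_eq_mul]

/-- The spread of the double points: a lower bound for the dimension. -/
theorem tlem_one {K : Type} [Field K] [CharZero K] {s : ℕ} {P : Fin s → Fin 2 → K}
    (hP : AlgebraicIndependent ℚ (fun ij : Fin s × Fin 2 => P ij.1 ij.2))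
    {w : Fin s → ℕ} {d : ℕ} (h1 : Module.finrank K ↥(VS (fun j => aff (P j)) w d) = 1)
    {f : MvPolynomial (Fin 3) K} (hf : f ∈ VS (fun j => aff (P j)) w d) (hf0 : f ≠ 0)
    (hsq : Squarefree f) (S : Finset (Fin s)) (hS : ∀ j, j ∉ S → w j ≤ 2) :
    1 + 2 * (Finset.univ.filter fun j => j ∉ S ∧ w j = 2).card +
        (Finset.univ.filter fun j => j ∉ S ∧ w j = 1).card ≤
      Module.finrank K ↥(VS (fun j => aff (P j)) (fun j => if j ∈ S then w j else w j - 1) d) := by
  classical
  obtain ⟨c0, μ, hc0, hμ, hcf⟩ := exists_norm hf hf0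
  obtain ⟨g, hg⟩ : ∃ g, g = C c0 * f := ⟨_, rfl⟩
  rw [← hg] at hμ hcf
  have hg0 : g ≠ 0 := by
    rw [hg]
    exact mul_ne_zero (fun h => hc0 (by rwa [C_eq_zero] at h)) hf0
  have hgh := ((mem_VS _ _ _ _).1 hcf).1
  have hgsq : Squarefree g := by
    rw [hg]
    have hu : IsUnit (C c0 : MvPolynomial (Fin 3) K) := (isUnit_iff_ne_zero.2 hc0).map C
    exact fun x hx => hsq x (hu.dvd_mul_left.1 hx)
  have hord : ∀ j, Ord (aff (P j)) (w j) g := exact_ord hP h1 hcf hg0
  obtain ⟨D, hD⟩ := exists_D hP
  let J : Finset (Fin s × Fin 2) := Finset.univ.filter fun x => x.1 ∉ S ∧ w x.1 ≠ 0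
  have hJ : ∀ x, x ∈ J ↔ x.1 ∉ S ∧ w x.1 ≠ 0 := fun x => by
    show x ∈ Finset.univ.filter (fun x : Fin s × Fin 2 => x.1 ∉ S ∧ w x.1 ≠ 0) ↔ _
    rw [Finset.mem_filter]
    simp
  let w1 : Fin s → ℕ := fun j => if j ∈ S then w j else w j - 1
  have hDx : ∀ x ∈ J, dG (D x) g ∈ VS (fun j => aff (P j)) w1 d := by
    intro x hx
    obtain ⟨hx1, hx2⟩ := (hJ x).1 hx
    obtain ⟨k1, -⟩ := move (w := w) (P := P) (d := d) (k := x.1) (m := w x.1 - 1)
      (by omega) (a := x.2) (D x) (fun i b => hD x i b) (mem_forms_VS.1 hcf)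
    rw [← mem_forms_VS] at k1
    refine vs_le (fun i => ?_) k1
    show (if i ∈ S then w i else w i - 1) ≤ _
    by_cases hi : i = x.1
    · subst hi
      rw [Function.update_self, if_neg hx1]
    · rw [Function.update_of_ne hi]
      split_ifs <;> omega
  have hgw1 : g ∈ VS (fun j => aff (P j)) w1 d := by
    refine vs_le (fun i => ?_) hcf
    show (if i ∈ S then w i else w i - 1) ≤ w i
    split_ifs <;> omega
  let Psi : (K × (J → K)) →ₗ[K] MvPolynomial (Fin 3) K :=
    { toFun := fun q => q.1 • g + ∑ x : J, q.2 x • dG (D x) g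
      map_add' := fun q q' => by
        simp only [Prod.fst_add, Prod.snd_add, Pi.add_apply, add_smul, Finset.sum_add_distrib]
        abel
      map_smul' := fun t q => by
        simp only [Prod.smul_fst, Prod.smul_snd, Pi.smul_apply, smul_eq_mul, mul_smul,
          RingHom.id_apply, smul_add, Finset.smul_sum] }
  have hPsi : ∀ q, Psi q = q.1 • g + ∑ x : J, q.2 x • dG (D x) g := fun q => rfl
  have hrange : LinearMap.range Psi ≤ VS (fun j => aff (P j)) w1 d := by
    rintro _ ⟨q, rfl⟩
    rw [hPsi]
    refine Submodule.add_mem _ (Submodule.smul_mem _ _ hgw1) ?_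
    exact Submodule.sum_mem _ fun x _ => Submodule.smul_mem _ _ (hDx x x.2)
  have hfin := vs_fin (fun j => aff (P j)) w1 d
  have d1 := Submodule.finrank_mono hrange
  have d2 := LinearMap.finrank_range_add_finrank_ker Psi
  have d3 : Module.finrank K (K × (J → K)) = 1 + J.card := by
    rw [Module.finrank_prod, Module.finrank_self, Module.finrank_fintype_fun_eq_card,
      Fintype.card_coe]
  -- the kernel
  have hker : ∀ q ∈ LinearMap.ker Psi, q.1 = 0 ∧
      dG (∑ x ∈ Finset.univ, q.2 x • D x.1) g = 0 := by
    intro q hq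
    rw [LinearMap.mem_ker, hPsi] at hq
    have e1 := congrArg (coeff μ) hq
    rw [coeff_add, coeff_smul, hμ, coeff_sum, Finset.sum_eq_zero (fun x _ => by
      rw [coeff_smul, coeff_dG, hμ, (D x).map_one_eq_zero, smul_zero]), coeff_zero, add_zero,
      smul_eq_mul, mul_one] at e1
    refine ⟨e1, ?_⟩
    rw [e1, zero_smul, zero_add] at hq
    ext α
    rw [coeff_dG, sum_der, ← hq, coeff_sum]
    exact Finset.sum_congr rfl fun x _ => by rw [coeff_smul, coeff_dG, smul_eq_mul]
  have hDq : ∀ (a : J → K) (x : J), (∑ y ∈ Finset.univ, a y • D y.1) (P x.1.1 x.1.2) = a x := by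
    intro a x
    rw [sum_der, Finset.sum_eq_single x]
    · rw [hD, if_pos ⟨rfl, rfl⟩, mul_one]
    · intro y _ hy
      rw [hD, if_neg, mul_zero]
      intro h
      exact hy (Subtype.ext (Prod.ext h.1.symm h.2.symm))
    · intro h
      exact absurd (Finset.mem_univ _) h
  have hgrad : ∀ j : Fin s, ∃ b : Fin 2, w j = 1 →
      eval (aff (P j)) (pderiv (Fin.castSucc b) g) ≠ 0 := by
    intro j
    by_cases hj : w j = 1
    · have h2 := hord j
      rw [hj] at h2
      obtain ⟨b, hb⟩ := grad_ne hgh h2
      exact ⟨b, fun _ => hb⟩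
    · exact ⟨0, fun h => absurd h hj⟩
  choose β hβ using hgrad
  let T1 : Finset (Fin s) := Finset.univ.filter fun j => j ∉ S ∧ w j = 1
  have hT1 : ∀ j, j ∈ T1 ↔ j ∉ S ∧ w j = 1 := fun j => by
    show j ∈ Finset.univ.filter (fun j => j ∉ S ∧ w j = 1) ↔ _
    rw [Finset.mem_filter]
    simp
  have hT1J : ∀ (j : T1) (b : Fin 2), ((j.1, b) : Fin s × Fin 2) ∈ J := by
    intro j b
    have := (hT1 j.1).1 j.2
    rw [hJ]
    exact ⟨this.1, by rw [this.2]; exact one_ne_zero⟩
  let κ : (K × (J → K)) →ₗ[K] (T1 → K) :=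
    { toFun := fun q j => q.2 ⟨(j.1, 1 - β j.1), hT1J j _⟩
      map_add' := fun q q' => rfl
      map_smul' := fun t q => rfl }
  have hinj : Function.Injective (κ.comp (LinearMap.ker Psi).subtype) := by
    rw [← LinearMap.ker_eq_bot, LinearMap.ker_eq_bot']
    rintro ⟨q, hq⟩ hq2
    obtain ⟨e1, e2⟩ := hker q hq
    have hq3 : ∀ j : T1, q.2 ⟨(j.1, 1 - β j.1), hT1J j _⟩ = 0 := fun j => congrFun hq2 j
    apply Subtype.ext
    apply Prod.ext
    · exact e1
    · funext x
      show q.2 x = 0
      obtain ⟨hx1, hx2⟩ := (hJ x.1).1 x.2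
      have hx3 := hS x.1.1 hx1
      rcases Nat.lt_or_ge (w x.1.1) 2 with hlt | hge
      · -- a simple point
        have hw1 : w x.1.1 = 1 := by omega
        have hx4 : x.1.1 ∈ T1 := (hT1 _).2 ⟨hx1, hw1⟩
        have hxb : x.1.2 = β x.1.1 ∨ x.1.2 = 1 - β x.1.1 := by
          generalize x.1.2 = b
          generalize β x.1.1 = b'
          fin_cases b <;> fin_cases b' <;> simp
        have hz := hq3 ⟨x.1.1, hx4⟩
        rcases hxb with hxb | hxb
        · have h2 := der_eval (∑ y ∈ Finset.univ, q.2 y • D y.1) (aff (P x.1.1)) g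
          have h3 : eval (aff (P x.1.1)) g = 0 := by
            have := (hord x.1.1).1
            rw [hw1] at this
            exact (TT.van_one).1 this
          have haff : ∀ b : Fin 2, aff (P x.1.1) (Fin.castSucc b) = P x.1.1 b := by
            intro b
            fin_cases b <;> rfl
          rw [e2, h3, map_zero, map_zero, zero_add, Fin.sum_univ_castSucc] at h2
          have h4 : (∑ y ∈ Finset.univ, q.2 y • D y.1) (aff (P x.1.1) (Fin.last 2)) = 0 := by
            have : aff (P x.1.1) (Fin.last 2) = 1 := rfl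
            rw [this]
            exact Derivation.map_one_eq_zero _
          rw [h4, mul_zero, add_zero] at h2
          have h5 : ∀ b : Fin 2, (∑ y ∈ Finset.univ, q.2 y • D y.1)
              (aff (P x.1.1) (Fin.castSucc b)) = q.2 ⟨(x.1.1, b), hT1J ⟨x.1.1, hx4⟩ b⟩ := by
            intro b
            rw [haff]
            exact hDq q.2 ⟨(x.1.1, b), hT1J ⟨x.1.1, hx4⟩ b⟩
          simp only [h5] at h2
          rw [Finset.sum_eq_single (β x.1.1)] at h2
          · have h6 := hβ x.1.1 hw1
            have h7 := (mul_eq_zero.1 h2.symm).resolve_left h6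
            have h8 : x = ⟨(x.1.1, β x.1.1), hT1J ⟨x.1.1, hx4⟩ _⟩ :=
              Subtype.ext (Prod.ext rfl hxb)
            rw [h8]
            exact h7
          · intro b _ hb
            have h9 : b = 1 - β x.1.1 := by
              revert hb
              generalize β x.1.1 = b'
              fin_cases b <;> fin_cases b' <;> simp
            subst h9
            rw [hz, mul_zero]
          · intro h
            exact absurd (Finset.mem_univ _) h
        · have h8 : x = ⟨(x.1.1, 1 - β x.1.1), hT1J ⟨x.1.1, hx4⟩ _⟩ :=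
            Subtype.ext (Prod.ext rfl hxb)
          rw [h8]
          exact hz
      · -- a double point
        have h2 : Van (aff (P x.1.1)) 2 g := van_mono hge (hord x.1.1).1
        have h3 := sing_const (∑ y ∈ Finset.univ, q.2 y • D y.1) hgh hg0 hgsq e2
          (p := P x.1.1) ((TT.van_one).1 (van_mono (by omega) h2)) (fun l => pd_mem h2 l) x.1.2
        rw [hDq q.2 x] at h3
        exact h3
  have d4 : Module.finrank K ↥(LinearMap.ker Psi) ≤ T1.card := by
    have := LinearMap.finrank_le_finrank_of_injective hinj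
    rwa [Module.finrank_fintype_fun_eq_card, Fintype.card_coe] at this
  have d5 : J.card = 2 * (T1.card + (Finset.univ.filter fun j => j ∉ S ∧ w j = 2).card) := by
    have e1 : J = (T1 ∪ (Finset.univ.filter fun j => j ∉ S ∧ w j = 2)) ×ˢ
        (Finset.univ : Finset (Fin 2)) := by
      ext x
      rw [hJ, Finset.mem_product, Finset.mem_union, hT1, Finset.mem_filter]
      constructor
      · rintro ⟨a1, a2⟩
        have := hS _ a1
        refine ⟨?_, Finset.mem_univ _⟩
        rcases Nat.lt_or_ge (w x.1) 2 with h | h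
        · left
          exact ⟨a1, by omega⟩
        · right
          exact ⟨Finset.mem_univ _, a1, by omega⟩
      · rintro ⟨a1 | a1, -⟩
        · exact ⟨a1.1, by omega⟩
        · exact ⟨a1.2.1, by omega⟩
    rw [e1, Finset.card_product, Finset.card_union_of_disjoint, Finset.card_univ,
      Fintype.card_fin]
    · ring
    · rw [Finset.disjoint_left]
      intro j hj hj2
      have a1 := ((hT1 j).1 hj).2
      have a2 := (Finset.mem_filter.1 hj2).2.2
      omega
  have e3 : T1.card = (Finset.univ.filter fun j => j ∉ S ∧ w j = 1).card := rfl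
  show _ ≤ Module.finrank K ↥(VS (fun j => aff (P j)) w1 d)
  omega

/-- Simple points impose independent conditions. -/
theorem tlem_two {K : Type} [Field K] [CharZero K] {s : ℕ} {P : Fin s → Fin 2 → K}
    (hP : AlgebraicIndependent ℚ (fun ij : Fin s × Fin 2 => P ij.1 ij.2))
    {w0 : Fin s → ℕ} {d : ℕ} :
    ∀ (A : Finset (Fin s)) (_ : ∀ j ∈ A, w0 j = 0)
      (_ : 0 < Module.finrank K ↥(VS (fun j => aff (P j)) (fun j => if j ∈ A then 1 else w0 j) d)),
      Module.finrank K ↥(VS (fun j => aff (P j)) (fun j => if j ∈ A then 1 else w0 j) d) +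
        A.card ≤ Module.finrank K ↥(VS (fun j => aff (P j)) w0 d) := by
  classical
  intro A
  induction A using Finset.induction_on with
  | empty =>
    intro _ _
    simp
    exact le_rfl
  | insert j A hj ih =>
    intro hA hpos
    have e1 : (fun i => if i ∈ insert j A then 1 else w0 i) =
        Function.update (fun i => if i ∈ A then 1 else w0 i) j 1 := by
      funext i
      by_cases hi : i = j
      · subst hi
        rw [Function.update_self, if_pos (Finset.mem_insert_self _ _)]
      · rw [Function.update_of_ne hi]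
        simp [Finset.mem_insert, hi]
    have hle : VS (fun j => aff (P j)) (fun i => if i ∈ insert j A then 1 else w0 i) d ≤
        VS (fun j => aff (P j)) (fun i => if i ∈ A then 1 else w0 i) d := by
      refine vs_le fun i => ?_
      by_cases hi : i ∈ A
      · rw [if_pos hi, if_pos (Finset.mem_insert_of_mem hi)]
      · rw [if_neg hi]
        by_cases hij : i = j
        · subst hij
          rw [if_pos (Finset.mem_insert_self _ _), hA i (Finset.mem_insert_self _ _)]
          exact zero_le_one
        · rw [if_neg (by simp [hij, hi])]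
    have hf := vs_fin (fun j => aff (P j)) (fun i => if i ∈ A then 1 else w0 i) d
    have hpos' := lt_of_lt_of_le hpos (Submodule.finrank_mono hle)
    have h1 := ih (fun i hi => hA i (Finset.mem_insert_of_mem hi)) hpos'
    have h2 := simple_drop hP (w := fun i => if i ∈ A then 1 else w0 i) (j := j)
      (by rw [if_neg hj]; exact hA j (Finset.mem_insert_self _ _)) hpos'
    rw [← e1] at h2
    rw [Finset.card_insert_of_notMem hj]
    omega

/-- A rigid system with a reduced member: the points of multiplicity at most two impose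
independent conditions. -/
theorem tlem {K : Type} [Field K] [CharZero K] {s : ℕ} {P : Fin s → Fin 2 → K}
    (hP : AlgebraicIndependent ℚ (fun ij : Fin s × Fin 2 => P ij.1 ij.2))
    {w : Fin s → ℕ} {d : ℕ} (h1 : Module.finrank K ↥(VS (fun j => aff (P j)) w d) = 1)
    {f : MvPolynomial (Fin 3) K} (hf : f ∈ VS (fun j => aff (P j)) w d) (hf0 : f ≠ 0)
    (hsq : Squarefree f) (S : Finset (Fin s)) (hS : ∀ j, j ∉ S → w j ≤ 2) :
    1 + ∑ j, (if j ∈ S then 0 else (w j + 1).choose 2) ≤
      Module.finrank K ↥(VS (fun j => aff (P j)) (fun j => if j ∈ S then w j else 0) d) := by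
  classical
  have h2 := tlem_one hP h1 hf hf0 hsq S hS
  have e1 : (fun j => if j ∈ S then w j else w j - 1) =
      fun j => if j ∈ (Finset.univ.filter fun j => j ∉ S ∧ w j = 2) then 1 else
        (if j ∈ S then w j else 0) := by
    funext j
    by_cases hj : j ∈ S
    · simp [hj]
    · have := hS j hj
      by_cases hj2 : w j = 2
      · simp [hj, hj2]
      · rw [if_neg hj, if_neg hj, if_neg (by simp [hj2])]
        omega
  rw [e1] at h2
  have h3 := tlem_two hP (w0 := fun j => if j ∈ S then w j else 0) (d := d)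
    (Finset.univ.filter fun j => j ∉ S ∧ w j = 2) (by
      intro j hj
      rw [Finset.mem_filter] at hj
      show (if j ∈ S then w j else 0) = 0
      rw [if_neg hj.2.1]) (by omega)
  have h4 : ∑ j, (if j ∈ S then 0 else (w j + 1).choose 2) =
      3 * (Finset.univ.filter fun j => j ∉ S ∧ w j = 2).card +
        (Finset.univ.filter fun j => j ∉ S ∧ w j = 1).card := by
    rw [Finset.card_filter, Finset.card_filter, Finset.mul_sum, ← Finset.sum_add_distrib]
    refine Finset.sum_congr rfl fun j _ => ?_
    by_cases hj : j ∈ S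
    · simp [hj]
    · have := hS j hj
      interval_cases h5 : w j <;> simp [hj]
  omega

end Pool.Agent.TH167.TT
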