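import Pool.Agent.TH167.TT.Zar

set_option autoImplicit false

/-!
# Non-speciality of reduced classes, all degrees at once
-/

namespace Pool.Agent.TH167.TT

open MvPolynomial Pool.Agent.W609 Pool.Agent.W609.CR Pool.Agent.TH167.SH

theorem red_of_antitone {r d : ℕ} {v : Fin (r + 4) → ℕ} (hv : Antitone v)
    (hd : v 0 + v 1 + v 2 ≤ d) : Reduced d v := by
  have n0 : ((0 : Fin (r + 4)) : ℕ) = 0 := rfl
  have n1 : ((1 : Fin (r + 4)) : ℕ) = 1 := Nat.mod_eq_of_lt (show 1 < r + 4 by omega)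
  have n2 : ((2 : Fin (r + 4)) : ℕ) = 2 := Nat.mod_eq_of_lt (show 2 < r + 4 by omega)
  have h0 : ∀ i, v i ≤ v 0 := fun i => hv (by rw [Fin.le_def, n0]; omega)
  have h1 : ∀ i : Fin (r + 4), 1 ≤ (i : ℕ) → v i ≤ v 1 := fun i hi =>
    hv (by rw [Fin.le_def, n1]; omega)
  have h2 : ∀ i : Fin (r + 4), 2 ≤ (i : ℕ) → v i ≤ v 2 := fun i hi =>
    hv (by rw [Fin.le_def, n2]; omega)
  intro i j k hij hik hjk
  have e1 : i.1 ≠ j.1 := fun h => hij (Fin.ext h)
  have e2 : i.1 ≠ k.1 := fun h => hik (Fin.ext h)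
  have e3 : j.1 ≠ k.1 := fun h => hjk (Fin.ext h)
  have a0 := h0 i
  have b0 := h0 j
  have c0 := h0 k
  rcases Nat.lt_or_ge i.1 1 with hi | hi
  · have b1 := h1 j (by omega)
    have c1 := h1 k (by omega)
    rcases Nat.lt_or_ge j.1 2 with hj | hj
    · have := h2 k (by omega)
      omega
    · have := h2 j (by omega)
      omega
  · have a1 := h1 i hi
    rcases Nat.lt_or_ge i.1 2 with hi2 | hi2
    · rcases Nat.lt_or_ge j.1 1 with hj | hj
      · have := h2 k (by omega)
        omega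
      · have := h2 j (by omega)
        omega
    · have a2 := h2 i hi2
      rcases Nat.lt_or_ge j.1 1 with hj | hj
      · have := h1 k (by omega)
        omega
      · have := h1 j (by omega)
        omega

theorem card_of_nine {r : ℕ} {v : Fin (r + 4) → ℕ}
    (h9 : ∀ i : Fin (r + 4), 9 ≤ (i : ℕ) → v i ≤ 2) :
    (Finset.univ.filter fun i => 2 < v i).card ≤ 9 := by
  have h1 : (Finset.univ.filter fun i => 2 < v i).card ≤ (Finset.range 9).card := by
    refine Finset.card_le_card_of_injOn (fun i : Fin (r + 4) => (i : ℕ)) ?_ ?_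
    · intro i hi
      have hi2 : i ∈ Finset.univ.filter fun i => 2 < v i := hi
      rw [Finset.mem_filter] at hi2
      have h3 : (i : ℕ) < 9 := by
        by_contra h4
        have := h9 i (by omega)
        omega
      exact Finset.mem_coe.2 (Finset.mem_range.2 h3)
    · intro i _ j _ hij
      exact Fin.ext hij
  simpa using h1

/-- Generic points. -/
theorem nonsp_gen {K : Type} [Field K] [CharZero K] {r d : ℕ} {v : Fin (r + 4) → ℕ}
    (hred : Reduced d v) (h9 : (Finset.univ.filter fun i => 2 < v i).card ≤ 9)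
    {P : Fin (r + 4) → Fin 2 → K}
    (hP : AlgebraicIndependent ℚ (fun ij : Fin (r + 4) × Fin 2 => P ij.1 ij.2)) :
    Module.finrank K ↥(VS (fun j => aff (P j)) v d) =
      (d + 2).choose 2 - ∑ j, (v j + 1).choose 2 := by
  have h1 := chi_le_dim P d v
  rw [chi_cast] at h1
  rcases Nat.eq_zero_or_pos (Module.finrank K ↥(VS (fun j => aff (P j)) v d)) with h0 | h0
  · rw [h0] at h1 ⊢
    push_cast at h1
    have : ((d + 2).choose 2 : ℤ) ≤ ((∑ j, (v j + 1).choose 2 : ℕ) : ℤ) := by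
      push_cast
      linarith
    have h2 : (d + 2).choose 2 ≤ ∑ j, (v j + 1).choose 2 := by exact_mod_cast this
    omega
  · have h2 := red9 hred h9 notMem_filter hP h0
    rw [chi_cast] at h2
    omega

/-- General points, for one degree. -/
theorem nonsp_one {r d : ℕ} {v : Fin (r + 4) → ℕ}
    (hred : Reduced d v) (h9 : (Finset.univ.filter fun i => 2 < v i).card ≤ 9) :
    ∃ F : MvPolynomial (Fin (r + 4) × Fin 2) ℚ, F ≠ 0 ∧ ∀ (K : Type) [Field K] [CharZero K]
      (P : Fin (r + 4) → Fin 2 → K), evP P F ≠ 0 →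
      Module.finrank K ↥(VS (fun j => aff (P j)) v d) =
        (d + 2).choose 2 - ∑ j, (v j + 1).choose 2 := by
  obtain ⟨g, F, hF, hg⟩ := dim_gen v d
  obtain ⟨K0, i1, i2, P0, hP0⟩ := exists_generic (r + 4)
  have h1 := hg K0 P0 (evP_ne hP0 hF)
  rw [nonsp_gen hred h9 hP0] at h1
  exact ⟨F, hF, fun K _ _ P hP => by rw [hg K P hP, ← h1]⟩

/-- General points, for all degrees. -/
theorem nonsp_all {r : ℕ} {v : Fin (r + 4) → ℕ}
    (h9 : (Finset.univ.filter fun i => 2 < v i).card ≤ 9) :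
    ∃ F : MvPolynomial (Fin (r + 4) × Fin 2) ℚ, F ≠ 0 ∧ ∀ (K : Type) [Field K] [CharZero K]
      (P : Fin (r + 4) → Fin 2 → K), evP P F ≠ 0 → ∀ d, Reduced d v →
      Module.finrank K ↥(VS (fun j => aff (P j)) v d) =
        (d + 2).choose 2 - ∑ j, (v j + 1).choose 2 := by
  classical
  obtain ⟨F', hF', h'⟩ := inj_fam (r + 4)
  have h1 : ∀ d, ∃ F : MvPolynomial (Fin (r + 4) × Fin 2) ℚ, F ≠ 0 ∧
      ∀ (K : Type) [Field K] [CharZero K] (P : Fin (r + 4) → Fin 2 → K), evP P F ≠ 0 →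
      Reduced d v → Module.finrank K ↥(VS (fun j => aff (P j)) v d) =
        (d + 2).choose 2 - ∑ j, (v j + 1).choose 2 := by
    intro d
    by_cases hred : Reduced d v
    · obtain ⟨F, hF, h⟩ := nonsp_one hred h9
      exact ⟨F, hF, fun K _ _ P hP _ => h K P hP⟩
    · exact ⟨1, one_ne_zero, fun K _ _ P _ h => absurd h hred⟩
  choose F hF h using h1
  refine ⟨F' * ∏ d ∈ Finset.range (∑ j, v j), F d, mul_ne_zero hF'
    (Finset.prod_ne_zero_iff.2 fun d _ => hF d), fun K _ _ P hP d hred => ?_⟩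
  rw [map_mul, map_prod] at hP
  rcases Nat.lt_or_ge d (∑ j, v j) with hd | hd
  · exact h d K P (Finset.prod_ne_zero_iff.1 (right_ne_zero_of_mul hP) d
      (Finset.mem_range.2 hd)) hred
  · have h2 := sum_le_dim (h' K P (left_ne_zero_of_mul hP)) v hd
    have h3 := chi_le_dim P d v
    rw [chi_cast] at h3
    omega

end Pool.Agent.TH167.TT
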