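import Pool.Agent.TH167.TT.Fin9

set_option autoImplicit false

/-!
# The Harbourne-Hirschowitz conjecture with at most nine multiplicities larger than two
-/

namespace Pool.Agent.TH167.TT

open MvPolynomial Pool.Agent.W609 Pool.Agent.W609.CR Pool.Agent.TH167.SH

theorem hh9 {r : ℕ} (d : ℕ) (w : Fin (r + 4) → ℕ) (S : Finset (Fin (r + 4)))
    (hSc : S.card ≤ 9) (hS : ∀ j, j ∉ S → w j ≤ 2) :
    ∃ F : MvPolynomial (Fin (r + 4) × Fin 2) ℚ, F ≠ 0 ∧ ∀ (K : Type) [Field K] [CharZero K]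
      (P : Fin (r + 4) → Fin 2 → K), evP P F ≠ 0 → Special P d w → MSpecial P d w := by
  classical
  obtain ⟨g, Fg, hFg, hg⟩ := dim_gen w d
  obtain ⟨K0, i1, i2, P0, hP0⟩ := exists_generic (r + 4)
  rcases Nat.eq_zero_or_pos g with hg0 | hg0
  · refine ⟨Fg, hFg, fun K _ _ P hP hs => ?_⟩
    exfalso
    rw [special_iff, hg K P hP, hg0] at hs
    omega
  · have hg1 := hg K0 P0 (evP_ne hP0 hFg)
    obtain ⟨d', w', k, C0, e, u, N, hD, hdim, P1, d1, w1, hP1, hchain, hle, hdle, hred, hdim1⟩ :=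
      main2 d P0 hP0 w (by rw [hg1]; exact hg0)
    have hns := red9 hred hSc (fun j hj => (hle j).trans (hS j hj)) hP1
      (by rw [hdim1, hdim, hg1]; exact hg0)
    have hspr := fun a => exc_spread (e a) (u a) ⟨K0, i1, i2, P0, C0 a, hP0, hD.exc a⟩
    choose Fa hFa hFa' using hspr
    refine ⟨Fg * ∏ a, Fa a, mul_ne_zero hFg
      (Finset.prod_ne_zero_iff.2 fun a _ => hFa a), fun K _ _ P hP hs => ?_⟩
    rw [map_mul, map_prod] at hP
    have q0 := hg K P (left_ne_zero_of_mul hP)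
    have q3 := Finset.prod_ne_zero_iff.1 (right_ne_zero_of_mul hP)
    choose C hC using fun a => hFa' a K P (q3 a (Finset.mem_univ a))
    have hDcp : Dcp P d w d' w' C e u N := ⟨hC, hD.pos, hD.orth, hD.deg, hD.mul, hD.zero⟩
    obtain ⟨c1, c2, c3⟩ := quad_inv hchain
    simp only at c1 c2 c3
    rw [special_iff, q0] at hs
    rw [hdim1, hdim, hg1] at hns
    refine ⟨d', w', k, C, e, u, N, hDcp, by omega, ?_⟩
    by_contra hcon
    push Not at hcon
    have h2 := hDcp.chi_one hcon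
    omega

end Pool.Agent.TH167.TT
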