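import Pool.Agent.TH167.TT.Semi
import Pool.Agent.H248R6.Move
import Pool.Agent.H248R6.Spec

set_option autoImplicit false

/-!
# Basic facts, and simple points
-/

namespace Pool.Agent.TH167.TT

open MvPolynomial Pool.Agent.W609 Pool.Agent.W609.CR Pool.Agent.TH167.SH Pool.Agent.H248R5
  Pool.Agent.H248R6

theorem mem_forms_VS {K : Type} [Field K] {s : ℕ} {P : Fin s → Fin 2 → K} {w : Fin s → ℕ} {d : ℕ}
    {G : MvPolynomial (Fin 3) K} : G ∈ VS (fun j => aff (P j)) w d ↔ G ∈ forms w P d := by
  rw [vs_eq_forms]

theorem van_tau {K : Type} [Field K] {p : Fin 2 → K} {m d : ℕ} {G : MvPolynomial (Fin 3) K}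
    (hG : G.IsHomogeneous d) : Van (aff p) m G ↔ tau p G ∈ (idealOfVars (Fin 2) K) ^ m := by
  rw [t_link K p m G d hG]
  exact ⟨fun h => tau_mem_of_mem h, fun h => mem_of_tau_mem hG h⟩

theorem tau_ne {K : Type} [Field K] {p : Fin 2 → K} {d : ℕ} {G : MvPolynomial (Fin 3) K}
    (hG : G.IsHomogeneous d) (h0 : G ≠ 0) : tau p G ≠ 0 := by
  intro h
  have h1 : Van (aff p) (d + 1) G := by
    rw [van_tau hG, h]
    exact Submodule.zero_mem _
  have := van_le h0 hG h1
  omega

theorem eval_tau {K : Type} [Field K] (p v : Fin 2 → K) (G : MvPolynomial (Fin 3) K) :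
    eval v (tau p G) = eval (aff (fun a => v a + p a)) G := by
  induction G using MvPolynomial.induction_on with
  | C c => rw [tau_C, eval_C, eval_C]
  | add G H hG hH => rw [map_add, map_add, map_add, hG, hH]
  | mul_X G i hG =>
    rw [map_mul, map_mul, map_mul, hG, eval_X]
    congr 1
    fin_cases i
    · change eval v (tau p (X 0)) = _
      rw [tau_X0]
      simp [aff]
    · change eval v (tau p (X 1)) = _
      rw [tau_X1]
      simp [aff]
    · change eval v (tau p (X 2)) = _
      rw [tau_X2]
      simp [aff]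

theorem exists_pt {K : Type} [Field K] [CharZero K] {d : ℕ} {G : MvPolynomial (Fin 3) K}
    (hG : G.IsHomogeneous d) (h0 : G ≠ 0) : ∃ p : Fin 2 → K, eval (aff p) G ≠ 0 := by
  by_contra hcon
  push Not at hcon
  refine tau_ne (p := 0) hG h0 ?_
  apply MvPolynomial.funext
  intro v
  rw [eval_tau, map_zero]
  exact hcon _

theorem van_one {K : Type} [Field K] {v : Fin 3 → K} {G : MvPolynomial (Fin 3) K} :
    Van v 1 G ↔ eval v G = 0 := by
  unfold Van
  rw [pow_one]
  exact RingHom.mem_ker

/-- A generic simple point lowers the dimension. -/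
theorem simple_drop {K : Type} [Field K] [CharZero K] {s : ℕ} {P : Fin s → Fin 2 → K}
    (hP : AlgebraicIndependent ℚ (fun ij : Fin s × Fin 2 => P ij.1 ij.2)) {w : Fin s → ℕ}
    {j : Fin s} (hj : w j = 0) {d : ℕ}
    (hpos : 0 < Module.finrank K ↥(VS (fun j => aff (P j)) w d)) :
    Module.finrank K ↥(VS (fun j => aff (P j)) (Function.update w j 1) d) <
      Module.finrank K ↥(VS (fun j => aff (P j)) w d) := by
  classical
  have hf := vs_fin (fun j => aff (P j)) w d
  have h1 : Nontrivial ↥(VS (fun j => aff (P j)) w d) := Module.finrank_pos_iff.1 hpos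
  obtain ⟨⟨f, hfm⟩, hf0⟩ := exists_ne (0 : ↥(VS (fun j => aff (P j)) w d))
  have hf0' : f ≠ 0 := fun h => hf0 (Subtype.ext h)
  have hfm' := hfm
  rw [mem_VS] at hfm'
  obtain ⟨p0, hp0⟩ := exists_pt hfm'.1 hf0'
  refine lt_of_le_of_lt (semi hP (Function.update P j p0) _ d) ?_
  apply Submodule.finrank_lt_finrank_of_lt
  rw [lt_iff_le_and_ne]
  constructor
  · intro g hg
    rw [mem_VS] at hg ⊢
    refine ⟨hg.1, fun i => ?_⟩
    by_cases hi : i = j
    · rw [hi, hj]
      exact van_zero _ _
    · have h2 := hg.2 i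
      rw [Function.update_of_ne hi, Function.update_of_ne hi] at h2
      exact h2
  · intro heq
    rw [← heq, mem_VS] at hfm
    have h2 := hfm.2 j
    rw [Function.update_self, Function.update_self, van_one] at h2
    exact hp0 h2

/-- One condition lowers the dimension by at most one. -/
theorem simple_le {K : Type} [Field K] {s : ℕ} (P : Fin s → Fin 2 → K) {w : Fin s → ℕ}
    {j : Fin s} (hj : w j = 0) (d : ℕ) :
    Module.finrank K ↥(VS (fun j => aff (P j)) w d) ≤
      Module.finrank K ↥(VS (fun j => aff (P j)) (Function.update w j 1) d) + 1 := by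
  classical
  have hf := vs_fin (fun j => aff (P j)) w d
  let φ : ↥(VS (fun j => aff (P j)) w d) →ₗ[K] K :=
    { toFun := fun g => eval (aff (P j)) g.1
      map_add' := fun a b => by simp
      map_smul' := fun c a => by simp [smul_eval] }
  have h1 := LinearMap.finrank_range_add_finrank_ker φ
  have h2 : Module.finrank K ↥(LinearMap.range φ) ≤ 1 := by
    have := Submodule.finrank_le (LinearMap.range φ)
    rwa [Module.finrank_self] at this
  have h3 : (LinearMap.ker φ).map (VS (fun j => aff (P j)) w d).subtype ≤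
      VS (fun j => aff (P j)) (Function.update w j 1) d := by
    rintro _ ⟨g, hg, rfl⟩
    have hg' : eval (aff (P j)) g.1 = 0 := hg
    have hgm := g.2
    rw [mem_VS] at hgm ⊢
    refine ⟨hgm.1, fun i => ?_⟩
    by_cases hi : i = j
    · subst hi
      rw [Function.update_self]
      exact van_one.2 hg'
    · rw [Function.update_of_ne hi]
      exact hgm.2 i
  have hf2 := vs_fin (fun j => aff (P j)) (Function.update w j 1) d
  have h4 := Submodule.finrank_mono h3
  have h5 := LinearEquiv.finrank_eq (Submodule.equivMapOfInjective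
    (VS (fun j => aff (P j)) w d).subtype (Submodule.injective_subtype _) (LinearMap.ker φ))
  omega

end Pool.Agent.TH167.TT
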