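import Pool.Agent.TH167.TT.Irr2
import Pool.Agent.TH167.SH.Segre

set_option autoImplicit false

/-!
# Reduced classes with at most nine multiplicities larger than two: rigid systems
-/

namespace Pool.Agent.TH167.TT

open MvPolynomial Pool.Agent.W609 Pool.Agent.W609.CR Pool.Agent.TH167.SH

theorem ip_add {s : ℕ} (d d' e : ℕ) (w w' u : Fin s → ℕ) :
    ip (d + d') (fun j => w j + w' j) e u = ip d w e u + ip d' w' e u := by
  unfold ip
  push_cast
  rw [Finset.sum_congr rfl fun j _ => add_mul (w j : ℤ) (w' j) (u j), Finset.sum_add_distrib]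
  ring

theorem kk_add {s : ℕ} (d d' : ℕ) (w w' : Fin s → ℕ) :
    kk (d + d') (fun j => w j + w' j) = kk d w + kk d' w' := by
  unfold kk
  push_cast
  rw [Finset.sum_add_distrib]
  ring

theorem mult_le {K : Type} [Field K] {s : ℕ} {P : Fin s → Fin 2 → K} {w w' : Fin s → ℕ} {d d' : ℕ}
    {h : MvPolynomial (Fin 3) K} (hh : h ∈ VS (fun j => aff (P j)) w' d') (h0 : h ≠ 0) :
    Module.finrank K ↥(VS (fun j => aff (P j)) w d) ≤
      Module.finrank K ↥(VS (fun j => aff (P j)) (fun j => w j + w' j) (d + d')) := by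
  have hf := vs_fin (fun j => aff (P j)) (fun j => w j + w' j) (d + d')
  rw [mem_VS] at hh
  have hinj : Function.Injective (LinearMap.mulRight K h) := by
    intro a b hab
    rw [LinearMap.mulRight_apply, LinearMap.mulRight_apply] at hab
    exact mul_right_cancel₀ h0 hab
  have h1 : (VS (fun j => aff (P j)) w d).map (LinearMap.mulRight K h) ≤
      VS (fun j => aff (P j)) (fun j => w j + w' j) (d + d') := by
    rintro _ ⟨g, hg, rfl⟩
    have hg' : g ∈ VS (fun j => aff (P j)) w d := hg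
    rw [mem_VS] at hg' ⊢
    rw [LinearMap.mulRight_apply]
    exact ⟨hg'.1.mul hh.1, fun j => van_mul (hg'.2 j) (hh.2 j)⟩
  have h2 := Submodule.finrank_mono h1
  rw [(LinearEquiv.finrank_eq (Submodule.equivMapOfInjective _ hinj _)).symm] at h2
  exact h2

theorem pos_of_mem {K : Type} [Field K] {s : ℕ} {P : Fin s → Fin 2 → K} {w : Fin s → ℕ} {d : ℕ}
    {h : MvPolynomial (Fin 3) K} (hh : h ∈ VS (fun j => aff (P j)) w d) (h0 : h ≠ 0) :
    0 < Module.finrank K ↥(VS (fun j => aff (P j)) w d) := by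
  have hf := vs_fin (fun j => aff (P j)) w d
  rw [Module.finrank_pos_iff]
  exact ⟨⟨⟨h, hh⟩, 0, fun h1 => h0 (congrArg Subtype.val h1)⟩⟩

theorem exists_mem {K : Type} [Field K] {s : ℕ} {P : Fin s → Fin 2 → K} {w : Fin s → ℕ} {d : ℕ}
    (h : 0 < Module.finrank K ↥(VS (fun j => aff (P j)) w d)) :
    ∃ f ∈ VS (fun j => aff (P j)) w d, f ≠ 0 := by
  have hf := vs_fin (fun j => aff (P j)) w d
  have h1 : Nontrivial ↥(VS (fun j => aff (P j)) w d) := Module.finrank_pos_iff.1 h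
  obtain ⟨⟨f, hfm⟩, hf0⟩ := exists_ne (0 : ↥(VS (fun j => aff (P j)) w d))
  exact ⟨f, hfm, fun h => hf0 (Subtype.ext h)⟩

/-- A rigid reduced class with a reduced member. -/
theorem rig9 {K : Type} [Field K] [CharZero K] {r : ℕ} {P : Fin (r + 4) → Fin 2 → K}
    (hP : AlgebraicIndependent ℚ (fun ij : Fin (r + 4) × Fin 2 => P ij.1 ij.2)) {d : ℕ}
    {w : Fin (r + 4) → ℕ} (hred : Reduced d w) {S : Finset (Fin (r + 4))} (hSc : S.card ≤ 9)
    (hS : ∀ j, j ∉ S → w j ≤ 2) (h1 : Module.finrank K ↥(VS (fun j => aff (P j)) w d) = 1)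
    {f : MvPolynomial (Fin 3) K} (hf : f ∈ VS (fun j => aff (P j)) w d) (hf0 : f ≠ 0)
    (hsq : Squarefree f) : chi d w = 1 := by
  classical
  have h2 := tlem hP h1 hf hf0 hsq S hS
  have hred' : Reduced d (fun j => if j ∈ S then w j else 0) := by
    intro i j k hij hik hjk
    have := hred i j k hij hik hjk
    beta_reduce
    split_ifs <;> omega
  have h3 := nine hP hred' (by
    refine (Finset.card_le_card fun j hj => ?_).trans hSc
    rw [Finset.mem_filter] at hj
    by_contra hjS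
    exact hj.2 (by simp [hjS]))
  have h4 : ∑ j, (w j + 1).choose 2 = ∑ j, ((if j ∈ S then w j else 0) + 1).choose 2 +
      ∑ j, (if j ∈ S then 0 else (w j + 1).choose 2) := by
    rw [← Finset.sum_add_distrib]
    refine Finset.sum_congr rfl fun j _ => ?_
    by_cases hj : j ∈ S
    · simp [hj]
    · simp [hj]
  have h5 := chi_le_dim P d w
  rw [h1] at h5
  rw [chi_cast] at h5 ⊢
  push_cast at h5 ⊢
  have h6 : ((∑ j, (w j + 1).choose 2 : ℕ) : ℤ) + 1 ≤ ((d + 2).choose 2 : ℕ) := by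
    exact_mod_cast (by omega)
  push_cast at h6
  omega

/-- A rigid irreducible curve. -/
theorem irr9 {K : Type} [Field K] [CharZero K] {r : ℕ} {P : Fin (r + 4) → Fin 2 → K}
    (hP : AlgebraicIndependent ℚ (fun ij : Fin (r + 4) × Fin 2 => P ij.1 ij.2)) {e : ℕ}
    {w : Fin (r + 4) → ℕ} {S : Finset (Fin (r + 4))} (hSc : S.card ≤ 9)
    (hS : ∀ j, j ∉ S → w j ≤ 2) (h1 : Module.finrank K ↥(VS (fun j => aff (P j)) w e) = 1)
    {G : MvPolynomial (Fin 3) K} (hG : Irreducible G) (hGe : G.IsHomogeneous e)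
    (hord : ∀ j, Ord (aff (P j)) (w j) G) :
    chi e w = 1 ∧ (ip e w e w < 0 → ip e w e w = -1 ∧ kk e w = 1) := by
  rcases irr_red e P hP w G hG hGe hord with ⟨c1, c2, c3⟩ | ⟨P1, e1, w1, G1, a1, a2, a3, a4, a5,
    a6, a7, a8, a9⟩
  · rw [h1] at c1
    exact ⟨c1.symm, fun _ => ⟨c2, c3⟩⟩
  · obtain ⟨q1, q2, q3⟩ := quad_inv a5
    simp only at q1 q2 q3
    rw [h1] at a9
    have h2 := rig9 a1 a6 hSc (fun j hj => (a7 j).trans (hS j hj)) a9
      ((mem_VS _ _ _ _).2 ⟨a3, fun j => (a4 j).1⟩) a2.ne_zero a2.squarefree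
    have h3 : chi e w = 1 := by rw [← q1]; exact h2
    refine ⟨h3, fun hneg => ?_⟩
    exfalso
    have h4 := two_chi e1 w1
    rw [h2] at h4
    have h5 : 0 ≤ kk e1 w1 := by omega
    rw [kk_cast] at h5
    have h6 := red_ip a6 (fun j => van_le a2.ne_zero a3 (a4 j).1) (by omega)
    omega

end Pool.Agent.TH167.TT
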