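import Pool.Agent.TH167.TT.Core

set_option autoImplicit false

/-!
# Reduced classes with at most nine multiplicities larger than two
-/

namespace Pool.Agent.TH167.TT

open MvPolynomial Pool.Agent.W609 Pool.Agent.W609.CR Pool.Agent.TH167.SH

theorem ip_sq {s : ℕ} (d e : ℕ) (w u : Fin s → ℕ) :
    ip (d + e) (fun j => w j + u j) (d + e) (fun j => w j + u j) =
      ip d w d w + 2 * ip d w e u + ip e u e u := by
  have a1 := ip_add d e (d + e) w u (fun j => w j + u j)
  have a2 := ip_comm d (d + e) w (fun j => w j + u j)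
  have a3 := ip_comm e (d + e) u (fun j => w j + u j)
  have a4 := ip_add d e d w u w
  have a5 := ip_add d e e w u u
  have a6 := ip_comm e d u w
  rw [a1, a2, a3, a4, a5, a6]
  ring

theorem mem_of_factor {K : Type} [Field K] {s : ℕ} {P : Fin s → Fin 2 → K} {w u : Fin s → ℕ}
    {d e : ℕ} {f G h : MvPolynomial (Fin 3) K} (hf : f ∈ VS (fun j => aff (P j)) w d)
    (hf0 : f ≠ 0) (hG : G.IsHomogeneous e) (hord : ∀ j, Ord (aff (P j)) (u j) G)
    (hfac : f = G * h) : e ≤ d ∧ h ∈ VS (fun j => aff (P j)) (fun j => w j - u j) (d - e) := by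
  have hh0 : h ≠ 0 := fun h0 => hf0 (by rw [hfac, h0, mul_zero])
  have hfm := (mem_VS _ _ _ _).1 hf
  have hhd := Pool.Agent.Chud.homog_of_dvd hfm.1 hf0 (Dvd.intro_left G hfac.symm)
  have h6 := hG.mul hhd
  rw [← hfac] at h6
  have h7 := h6.inj_right hfm.1 hf0
  refine ⟨by omega, ?_⟩
  rw [mem_VS]
  refine ⟨?_, fun j => ?_⟩
  · have h8 : h.totalDegree = d - e := by omega
    rwa [h8] at hhd
  · by_cases hw : w j ≤ u j
    · rw [Nat.sub_eq_zero_of_le hw]
      exact van_zero _ _
    · refine van_of_mul (hord j) ?_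
      rw [← hfac]
      have h9 : u j + (w j - u j) = w j := by omega
      rw [h9]
      exact hfm.2 j

theorem core9 {r : ℕ} : ∀ (d : ℕ) (K : Type) [Field K] [CharZero K] (P : Fin (r + 4) → Fin 2 → K)
    (_ : AlgebraicIndependent ℚ (fun ij : Fin (r + 4) × Fin 2 => P ij.1 ij.2))
    (w : Fin (r + 4) → ℕ) (_ : Reduced d w) (S : Finset (Fin (r + 4))) (_ : S.card ≤ 9)
    (_ : ∀ j, j ∉ S → w j ≤ 2) (_ : Module.finrank K ↥(VS (fun j => aff (P j)) w d) = 1),
    chi d w = 1 := by
  classical
  intro d
  induction d using Nat.strong_induction_on with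
  | _ d ih =>
    intro K _ _ P hP w hred S hSc hS h1
    obtain ⟨f, hf, hf0⟩ := exists_mem (by rw [h1]; exact one_pos)
    by_cases hsq : Squarefree f
    · exact rig9 hP hred hSc hS h1 hf hf0 hsq
    -- a double component
    unfold Squarefree at hsq
    push Not at hsq
    obtain ⟨x, hx1, hx2⟩ := hsq
    have hx0 : x ≠ 0 := fun h => hf0 (by rw [h, zero_mul, zero_dvd_iff] at hx1; exact hx1)
    obtain ⟨G, hG, hGx⟩ := WfDvdMonoid.exists_irreducible_factor hx2 hx0
    obtain ⟨h, hh⟩ : ∃ h, f = G * (G * h) := by
      obtain ⟨y, hy⟩ := hGx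
      obtain ⟨z, hz⟩ := hx1
      exact ⟨y * y * z, by rw [hz, hy]; ring⟩
    have hfm := (mem_VS _ _ _ _).1 hf
    have hGe := Pool.Agent.Chud.homog_of_dvd hfm.1 hf0 (Dvd.intro _ hh.symm)
    obtain ⟨e, he⟩ : ∃ e, e = G.totalDegree := ⟨_, rfl⟩
    rw [← he] at hGe
    have hG0 := hG.ne_zero
    have he0 := deg_pos hG hGe
    have hGh0 : G * h ≠ 0 := fun h0 => hf0 (by rw [hh, h0, mul_zero])
    have hh0 : h ≠ 0 := fun h0 => hGh0 (by rw [h0, mul_zero])
    choose u hu using fun j => exists_ord (p := P j) hG0 hGe
    obtain ⟨hed, hGhm⟩ := mem_of_factor hf hf0 hGe hu hh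
    obtain ⟨hed2, hhm⟩ := mem_of_factor hGhm hGh0 hGe hu rfl
    have hwu : ∀ j, 2 * u j ≤ w j := by
      intro j
      obtain ⟨v, hv⟩ := exists_ord (p := P j) hh0 ((mem_VS _ _ _ _).1 hhm).1
      have h2 := ord_mul (hu j) (ord_mul (hu j) hv)
      rw [← hh] at h2
      have h3 := ord_unique (exact_ord hP h1 hf hf0 j) h2
      omega
    have hGm : G ∈ VS (fun j => aff (P j)) u e := by
      rw [mem_VS]
      exact ⟨hGe, fun j => (hu j).1⟩
    -- the curve is rigid
    have r1 : Module.finrank K ↥(VS (fun j => aff (P j)) u e) = 1 := by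
      have h2 := mult_le (w := u) (d := e) hGhm hGh0
      have e1 : (fun j => u j + (w j - u j)) = w := by
        funext j
        have := hwu j
        omega
      have e2 : e + (d - e) = d := by omega
      rw [e1, e2, h1] at h2
      have h3 := pos_of_mem hGm hG0
      omega
    have r2 : Module.finrank K ↥(VS (fun j => aff (P j)) (fun j => w j - u j) (d - e)) = 1 := by
      have h2 := mult_le (w := fun j => w j - u j) (d := d - e) hGm hG0
      have e1 : (fun j => w j - u j + u j) = w := by
        funext j
        have := hwu j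
        omega
      have e2 : d - e + e = d := by omega
      rw [e1, e2, h1] at h2
      have h3 := pos_of_mem hGhm hGh0
      omega
    have r3 : Module.finrank K ↥(VS (fun j => aff (P j)) (fun j => u j + u j) (e + e)) ≤ 1 := by
      have h2 := mult_le (w := fun j => u j + u j) (d := e + e) hhm hh0
      have e1 : (fun j => u j + u j + (w j - u j - u j)) = w := by
        funext j
        have := hwu j
        omega
      have e2 : e + e + (d - e - e) = d := by omega
      rw [e1, e2, h1] at h2
      exact h2
    obtain ⟨c1, c2⟩ := irr9 hP hSc (fun j hj => by have := hS j hj; have := hwu j; omega) r1 hG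
      hGe hu
    -- numerical consequences
    have t1 := two_chi e u
    rw [c1] at t1
    have t2 := two_chi (e + e) (fun j => u j + u j)
    rw [ip_add, ip_comm e (e + e), ip_add, kk_add] at t2
    have t3 := chi_le_dim P (e + e) (fun j => u j + u j)
    have hcase : (ip e u e u = -1 ∧ kk e u = 1) ∨ (ip e u e u = 0 ∧ kk e u = 0) := by
      rcases lt_or_ge (ip e u e u) 0 with hneg | hge
      · exact Or.inl (c2 hneg)
      · right
        omega
    have hkk : 0 ≤ kk e u := by
      rcases hcase with h2 | h2 <;> omega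
    have hDC : 0 ≤ ip d w e u := by
      rw [kk_cast] at hkk
      exact red_ip hred (fun j => van_le hG0 hGe (hu j).1) (by omega)
    have hD : (fun j => (w j - u j) + u j) = w := by
      funext j
      have := hwu j
      omega
    have hd : d - e + e = d := by omega
    have s1 : ip d w d w = ip (d - e) (fun j => w j - u j) (d - e) (fun j => w j - u j) +
        2 * ip (d - e) (fun j => w j - u j) e u + ip e u e u := by
      have a1 := ip_sq (d - e) e (fun j => w j - u j) u
      rw [hD, hd] at a1
      exact a1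
    have s2 : ip d w e u = ip (d - e) (fun j => w j - u j) e u + ip e u e u := by
      have a1 := ip_add (d - e) e e (fun j => w j - u j) u u
      rw [hD, hd] at a1
      exact a1
    have s3 : kk d w = kk (d - e) (fun j => w j - u j) + kk e u := by
      have a1 := kk_add (d - e) e (fun j => w j - u j) u
      rw [hD, hd] at a1
      exact a1
    have s4 := two_chi d w
    have s5 := two_chi (d - e) (fun j => w j - u j)
    have s6 := chi_le_dim P d w
    rw [h1] at s6
    by_contra hchi
    have s7 : chi (d - e) (fun j => w j - u j) ≤ 0 := by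
      rcases hcase with h2 | h2 <;> omega
    -- the decomposition of the residual system
    obtain ⟨d', w', k, C, ee, uu, N, hDec, hdim, P1, d1, w1, hP1, hchain, hle, hd1, hred1,
      hdim1⟩ := main2 (d - e) P hP (fun j => w j - u j) (by rw [r2]; exact one_pos)
    rw [r2] at hdim
    rw [hdim] at hdim1
    have hc1 := ih d1 (by omega) K P1 hP1 w1 hred1 S hSc (fun j hj => by
      have h3 := hle j
      have h4 := hS j hj
      beta_reduce at h3
      omega) hdim1
    obtain ⟨q1, q2, q3⟩ := quad_inv hchain
    simp only at q1 q2 q3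
    rw [hc1] at q1
    have hDcp : Dcp P (d - e) (fun j => w j - u j) d' w' C ee uu N :=
      ⟨hDec.exc, hDec.pos, hDec.orth, hDec.deg, hDec.mul, hDec.zero⟩
    obtain ⟨a, ha⟩ : ∃ a, 2 ≤ N a := by
      by_contra hcon
      push Not at hcon
      have h3 := hDcp.chi_one hcon
      omega
    have hE := hDec.exc a
    have n1 := hDcp.neg a
    have n2 := red_nef hred hE
    have n3 : ip d w (ee a) (uu a) = ip (d - e) (fun j => w j - u j) (ee a) (uu a) +
        ip e u (ee a) (uu a) := by
      have a1 := ip_add (d - e) e (ee a) (fun j => w j - u j) u (uu a)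
      rw [hD, hd] at a1
      exact a1
    have n4 : 2 ≤ ip e u (ee a) (uu a) := by omega
    -- the curve plus the (-1)-curve moves
    have hdvd := exc_pow_dvd (inj_of_alg hP) hE (N a) (d - e) (fun j => w j - u j)
      (by omega) (G * h) hGhm
    obtain ⟨h2, hh2⟩ : ∃ h2, G * h = C a * h2 := by
      obtain ⟨y, hy⟩ := hdvd
      refine ⟨C a ^ (N a - 1) * y, ?_⟩
      rw [hy, ← mul_assoc, ← pow_succ']
      congr 2
      omega
    have hh20 : h2 ≠ 0 := fun h0 => hGh0 (by rw [hh2, h0, mul_zero])
    obtain ⟨hea, hh2m⟩ := mem_of_factor hGhm hGh0 hE.hom hE.ord hh2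
    have huu : ∀ j, uu a j ≤ w j - u j := by
      intro j
      have h3 := hDec.mul j
      beta_reduce at h3
      rw [h3]
      have h4 : N a * uu a j ≤ ∑ b, N b * uu b j :=
        Finset.single_le_sum (f := fun b => N b * uu b j) (fun b _ => Nat.zero_le _)
          (Finset.mem_univ a)
      nlinarith
    have m1 := mult_le (w := fun j => u j + uu a j) (d := e + ee a) hh2m hh20
    have e1 : (fun j => u j + uu a j + (w j - u j - uu a j)) = w := by
      funext j
      have := huu j
      have := hwu j
      omega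
    have e2 : e + ee a + (d - e - ee a) = d := by omega
    rw [e1, e2, h1] at m1
    have m2 := chi_le_dim P (e + ee a) (fun j => u j + uu a j)
    have m3 := two_chi (e + ee a) (fun j => u j + uu a j)
    rw [ip_add, ip_comm e (e + ee a), ip_add, ip_comm (ee a) (e + ee a), ip_add, kk_add,
      self_iff.1 hE.self, can_iff.1 hE.can, ip_comm (ee a) e] at m3
    omega

end Pool.Agent.TH167.TT
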