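import Pool.Agent.TH167.TT.Restr

set_option autoImplicit false

/-!
# Restriction to a cuspidal cubic
-/

namespace Pool.Agent.TH167.TT

open MvPolynomial Pool.Agent.W609 Pool.Agent.W609.CR Pool.Agent.TH167.SH Pool.Agent.H248R5

/-- The cuspidal cubic. -/
noncomputable def cusp (K : Type) [Field K] : MvPolynomial (Fin 3) K := X 2 ^ 2 * X 1 + (- X 0 ^ 3)

/-- Its points. -/
def cpt {K : Type} [Field K] (a : K) : Fin 2 → K := ![a, a ^ 3]

/-- Its parametrization. -/
noncomputable def crho (K : Type) [Field K] : MvPolynomial (Fin 3) K →ₐ[K] Polynomial K :=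
  aeval ![Polynomial.X, Polynomial.X ^ 3, 1]

theorem cusp_homog (K : Type) [Field K] : (cusp K).IsHomogeneous 3 := by
  unfold cusp
  have h1 : (X 2 ^ 2 * X 1 : MvPolynomial (Fin 3) K).IsHomogeneous 3 :=
    ((isHomogeneous_X K (2 : Fin 3)).pow 2).mul (isHomogeneous_X K 1)
  have h2 : (X 0 ^ 3 : MvPolynomial (Fin 3) K).IsHomogeneous 3 := by
    have := (isHomogeneous_X K (0 : Fin 3)).pow 3
    simpa using this
  exact h1.add h2.neg

theorem cusp_irr (K : Type) [Field K] : Irreducible (cusp K) := by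
  classical
  unfold cusp
  refine irreducible_mul_X_add _ _ 1 ?_ ?_ ?_ ?_
  · exact pow_ne_zero _ (X_ne_zero _)
  · intro h
    have h1 := vars_pow (X 2 : MvPolynomial (Fin 3) K) 2 h
    rw [vars_X] at h1
    simp at h1
  · intro h
    rw [vars_neg] at h
    have h1 := vars_pow (X 0 : MvPolynomial (Fin 3) K) 3 h
    rw [vars_X] at h1
    simp at h1
  · rw [IsRelPrime.neg_right_iff]
    apply IsRelPrime.pow
    rw [Irreducible.isRelPrime_iff_not_dvd (X_prime.irreducible)]
    intro h
    rw [X_dvd_X] at h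
    exact absurd h (by decide)

theorem cusp_ord {K : Type} [Field K] (a : K) : Ord (aff (cpt a)) 1 (cusp K) := by
  classical
  constructor
  · rw [TT.van_one]
    simp [cusp, aff, cpt]
  · intro h
    have h1 := pd_mem h 1
    simp [cusp, aff, pderiv_X] at h1

theorem crho_monomial {K : Type} [Field K] (α : Fin 3 →₀ ℕ) (c : K) :
    crho K (monomial α c) = Polynomial.C c * Polynomial.X ^ (α 0 + 3 * α 1) := by
  unfold crho
  rw [aeval_monomial, Finsupp.prod_fintype _ _ (fun i => by simp), Fin.prod_univ_three]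
  simp
  left
  ring

theorem crho_coeff {K : Type} [Field K] {F : MvPolynomial (Fin 3) K} {d n : ℕ}
    (hF : F.IsHomogeneous d) (h : ∀ α : Fin 3 →₀ ℕ, α 0 + α 1 + α 2 = d → α 0 + 3 * α 1 ≠ n) :
    (crho K F).coeff n = 0 := by
  classical
  rw [F.as_sum, map_sum, Polynomial.finsetSum_coeff]
  refine Finset.sum_eq_zero fun α hα => ?_
  rw [crho_monomial, Polynomial.coeff_C_mul, Polynomial.coeff_X_pow, if_neg, mul_zero]
  have h1 := hF (mem_support_iff.1 hα)
  have h2 : α 0 + α 1 + α 2 = d := by
    rw [← h1]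
    simp [Finsupp.weight_apply, Finsupp.sum_fintype, Fin.sum_univ_three]
  exact fun h3 => h α h2 h3.symm

theorem crho_ker {K : Type} [Field K] [CharZero K] {F : MvPolynomial (Fin 3) K} {d : ℕ}
    (hF : F.IsHomogeneous d) (h : crho K F = 0) : cusp K ∣ F := by
  classical
  by_contra hnd
  have hF0 : F ≠ 0 := fun h0 => hnd (by rw [h0]; exact dvd_zero _)
  have hev : ∀ a : K, eval (aff (cpt a)) F = (crho K F).eval a := by
    intro a
    have h1 : (Polynomial.aeval a).comp (crho K) = (aeval (aff (cpt a)) :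
        MvPolynomial (Fin 3) K →ₐ[K] K) := by
      apply MvPolynomial.algHom_ext
      intro i
      fin_cases i
      · simp [crho, aff, cpt]
      · simp [crho, aff, cpt]
      · simp [crho, aff, cpt]
    have h2 := DFunLike.congr_fun h1 F
    rw [AlgHom.comp_apply, Polynomial.coe_aeval_eq_eval] at h2
    rw [h2]
    rfl
  have hb := bez (s := 3 * d + 1) (P := fun j => cpt (j.1 : K)) (u := fun _ => 1) (w := fun _ => 1)
    (by
      intro i j hij
      have h1 := congrFun hij 0
      simp only [cpt, Matrix.cons_val_zero] at h1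
      exact Fin.ext (by exact_mod_cast h1)) (cusp_irr K) (cusp_homog K)
    (fun j => (cusp_ord _).1) hF0 hF (fun j => by
      rw [TT.van_one, hev, h, Polynomial.eval_zero]) hnd
  simp at hb

theorem crho_dvd {K : Type} [Field K] {a : K} {m d : ℕ} {F : MvPolynomial (Fin 3) K}
    (hF : F.IsHomogeneous d) (h : Van (aff (cpt a)) m F) :
    (Polynomial.X - Polynomial.C a) ^ m ∣ crho K F := by
  have h1 := (t_link K (cpt a) m F d hF).1 h
  have h2 := Ideal.mem_map_of_mem (crho K) h1
  rw [Ideal.map_pow, Ideal.map_span, Set.image_pair] at h2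
  rw [← Ideal.mem_span_singleton, ← Ideal.span_singleton_pow]
  refine Ideal.pow_right_mono ?_ m h2
  rw [Ideal.span_le]
  rintro x (rfl | rfl)
  · rw [SetLike.mem_coe, Ideal.mem_span_singleton]
    refine ⟨1, ?_⟩
    simp [crho, cpt]
  · rw [SetLike.mem_coe, Ideal.mem_span_singleton]
    refine ⟨Polynomial.X ^ 2 + Polynomial.C a * Polynomial.X + Polynomial.C a ^ 2, ?_⟩
    simp [crho, cpt]
    ring

/-- The restrictions of the forms to the cuspidal cubic. -/
noncomputable def cW {K : Type} [Field K] (Q : Polynomial K) (n k : ℕ) :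
    Submodule K (Polynomial K) :=
  (Polynomial.degreeLT K (k + 1) ⊓
    LinearMap.ker ((Polynomial.lcoeff K n).comp (LinearMap.mulLeft K Q))).map
      (LinearMap.mulLeft K Q)

theorem finrank_lt {K : Type} [Field K] (n : ℕ) :
    Module.finrank K ↥(Polynomial.degreeLT K n) = n := by
  rw [LinearEquiv.finrank_eq (Polynomial.degreeLTEquiv K n), Module.finrank_fin_fun]

theorem cW_fin {K : Type} [Field K] (Q : Polynomial K) (n k : ℕ) : Module.Finite K ↥(cW Q n k) := by
  have : Module.Finite K ↥(Polynomial.degreeLT K (k + 1)) :=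
    Module.Finite.equiv (Polynomial.degreeLTEquiv K (k + 1)).symm
  have h2 : Module.Finite K ↥(Polynomial.degreeLT K (k + 1) ⊓
    LinearMap.ker ((Polynomial.lcoeff K n).comp (LinearMap.mulLeft K Q))) :=
    Submodule.finiteDimensional_inf_left _ _
  unfold cW
  infer_instance

theorem cW_finrank {K : Type} [Field K] (Q : Polynomial K) (n k : ℕ) {g : Polynomial K}
    (hg : g ∈ Polynomial.degreeLT K (k + 1)) (hg' : (Q * g).coeff n ≠ 0) :
    Module.finrank K ↥(cW Q n k) ≤ k := by
  have hfin : Module.Finite K ↥(Polynomial.degreeLT K (k + 1)) :=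
    Module.Finite.equiv (Polynomial.degreeLTEquiv K (k + 1)).symm
  have h1 : Polynomial.degreeLT K (k + 1) ⊓
    LinearMap.ker ((Polynomial.lcoeff K n).comp (LinearMap.mulLeft K Q)) <
      Polynomial.degreeLT K (k + 1) := by
    rw [lt_iff_le_and_ne]
    refine ⟨inf_le_left, fun h => ?_⟩
    rw [← h] at hg
    exact hg' hg.2
  have h2 := Submodule.finrank_lt_finrank_of_lt h1
  rw [finrank_lt] at h2
  unfold cW
  have h3 : Module.Finite K ↥(Polynomial.degreeLT K (k + 1) ⊓
    LinearMap.ker ((Polynomial.lcoeff K n).comp (LinearMap.mulLeft K Q))) :=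
    Submodule.finiteDimensional_inf_left _ _
  have h4 := Submodule.finrank_map_le (LinearMap.mulLeft K Q) (Polynomial.degreeLT K (k + 1) ⊓
    LinearMap.ker ((Polynomial.lcoeff K n).comp (LinearMap.mulLeft K Q)))
  omega

/-- Restriction to the cuspidal cubic. -/
theorem cusp_step {K : Type} [Field K] [CharZero K] {s : ℕ} {t : Fin s → K}
    (ht : Function.Injective t) {w : Fin s → ℕ} {d : ℕ} (hd : 0 < d) (hsum : ∑ j, w j ≤ 3 * d)
    (hne : ∑ j, w j = 3 * d → ∑ j, (w j : K) * t j ≠ 0) :
    Module.finrank K ↥(VS (fun j => aff (cpt (t j))) w d) ≤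
      Module.finrank K ↥(VS (fun j => aff (cpt (t j))) (fun j => w j - 1) (d - 3)) +
        (3 * d - ∑ j, w j) := by
  classical
  obtain ⟨Q, hQ⟩ : ∃ Q : Polynomial K, Q = ∏ j, (Polynomial.X - Polynomial.C (t j)) ^ (w j) :=
    ⟨_, rfl⟩
  obtain ⟨k, hk⟩ : ∃ k, k = 3 * d - ∑ j, w j := ⟨_, rfl⟩
  have hmon : Q.Monic := by
    rw [hQ]
    exact Polynomial.monic_prod_of_monic _ _ fun j _ => (Polynomial.monic_X_sub_C _).pow _
  have hdeg : Q.natDegree = ∑ j, w j := by
    rw [hQ, Polynomial.natDegree_prod_of_monic _ _ fun j _ => (Polynomial.monic_X_sub_C _).pow _]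
    refine Finset.sum_congr rfl fun j _ => ?_
    rw [Polynomial.natDegree_pow, Polynomial.natDegree_X_sub_C, mul_one]
  have hfin := cW_fin Q (3 * d - 1) k
  have h1 := restrict (P := fun j => cpt (t j)) (w := w) (u := fun _ => 1) (d := d)
    (cusp_irr K).ne_zero (cusp_homog K) (fun j _ => cusp_ord _) (crho K).toLinearMap
    (cW Q (3 * d - 1) k) (by
      intro F hF
      rw [mem_VS] at hF
      show crho K F ∈ cW Q (3 * d - 1) k
      have h2 : Q ∣ crho K F := by
        rw [hQ]
        refine Finset.prod_dvd_of_coprime ?_ fun j _ => crho_dvd hF.1 (hF.2 j)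
        intro i _ j _ hij
        exact (Polynomial.isCoprime_X_sub_C_of_isUnit_sub
          (sub_ne_zero.2 (fun h => hij (ht h))).isUnit).pow
      obtain ⟨g, hg⟩ := h2
      refine ⟨g, ⟨?_, ?_⟩, hg.symm⟩
      · rw [SetLike.mem_coe, Polynomial.mem_degreeLT]
        by_cases hg0 : g = 0
        · rw [hg0, Polynomial.degree_zero]
          exact WithBot.bot_lt_coe _
        · rw [Polynomial.degree_eq_natDegree hg0]
          have h3 : (crho K F).natDegree ≤ 3 * d := by
            rw [Polynomial.natDegree_le_iff_coeff_eq_zero]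
            intro N hN
            exact crho_coeff hF.1 (fun α h1 h2 => by omega)
          rw [hg, Polynomial.natDegree_mul hmon.ne_zero hg0, hdeg] at h3
          have h4 : g.natDegree < k + 1 := by omega
          exact_mod_cast h4
      · show (Q * g).coeff (3 * d - 1) = 0
        rw [← hg]
        exact crho_coeff hF.1 (fun α h1 h2 => by omega))
    (fun F hF h => crho_ker ((mem_VS _ _ _ _).1 hF).1 h)
  refine h1.trans (Nat.add_le_add_left ?_ _)
  rw [← hk]
  rcases Nat.eq_zero_or_pos k with hk0 | hk0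
  · refine cW_finrank Q _ k (g := 1) ?_ ?_
    · rw [Polynomial.mem_degreeLT, Polynomial.degree_one]
      exact_mod_cast Nat.succ_pos k
    · rw [mul_one]
      have h5 : ∑ j, w j = 3 * d := by omega
      have h6 : Q.nextCoeff = - ∑ j, (w j : K) * t j := by
        rw [hQ, Polynomial.Monic.nextCoeff_prod _ _ fun j _ => (Polynomial.monic_X_sub_C _).pow _,
          ← Finset.sum_neg_distrib]
        refine Finset.sum_congr rfl fun j _ => ?_
        rw [(Polynomial.monic_X_sub_C _).nextCoeff_pow, Polynomial.nextCoeff_X_sub_C, nsmul_eq_mul,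
          mul_neg]
      have h7 : Q.nextCoeff = Q.coeff (3 * d - 1) := by
        rw [Polynomial.nextCoeff_of_natDegree_pos (by omega), hdeg, h5]
      rw [← h7, h6, neg_ne_zero]
      exact hne h5
  · refine cW_finrank Q _ k (g := Polynomial.X ^ (k - 1)) ?_ ?_
    · rw [Polynomial.mem_degreeLT, Polynomial.degree_X_pow]
      exact_mod_cast (by omega : k - 1 < k + 1)
    · have h5 : 3 * d - 1 = ∑ j, w j + (k - 1) := by omega
      rw [h5, Polynomial.coeff_mul_X_pow, ← hdeg]
      have h6 : Q.coeff Q.natDegree = 1 := hmon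
      rw [h6]
      exact one_ne_zero

end Pool.Agent.TH167.TT
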