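import Pool.Agent.TH167.TT.Bas
import Pool.Agent.Chud.PBZ

set_option autoImplicit false

/-!
# Elimination for coprime forms
-/

namespace Pool.Agent.TH167.TT

open MvPolynomial

/-- Coprime forms in three variables: elimination of one variable. -/
theorem exists_elim {k : Type} [Field k] {F G : MvPolynomial (Fin 3) k} {a b : ℕ}
    (hF : F.IsHomogeneous a) (hG : G.IsHomogeneous b) (hF0 : F ≠ 0) (hG0 : G ≠ 0)
    (hrel : IsRelPrime F G) {l : Fin 3} (hl : l ≠ 2) :
    ∃ (n : ℕ) (c : Fin (n + 1) → k), c ≠ 0 ∧ ∃ A B : MvPolynomial (Fin 3) k,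
      A * F + B * G = ∑ i, C (c i) * (X l ^ (i : ℕ) * X 2 ^ (n - i)) := by
  classical
  obtain ⟨N, hN⟩ : ∃ N, N = a * b := ⟨_, rfl⟩
  let R : ℕ → Submodule k (MvPolynomial (Fin 3) k) := fun n => homogeneousSubmodule (Fin 3) k n
  let V := (R (N + b)) × (R (N + a))
  let M : V →ₗ[k] MvPolynomial (Fin 3) k :=
    LinearMap.coprod ((LinearMap.mulRight k F).comp (R (N + b)).subtype)
      ((LinearMap.mulRight k G).comp (R (N + a)).subtype)
  have hM : ∀ x : V, M x = x.1.1 * F + x.2.1 * G := fun x => rfl
  have hMr : LinearMap.range M ≤ R (N + a + b) := by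
    rintro _ ⟨x, rfl⟩
    rw [hM]
    apply Submodule.add_mem
    · have h1 : (x.1.1).IsHomogeneous (N + b) := x.1.2
      have h2 := h1.mul hF
      show (x.1.1 * F).IsHomogeneous (N + a + b)
      convert h2 using 1
      omega
    · have h1 : (x.2.1).IsHomogeneous (N + a) := x.2.2
      have h2 := h1.mul hG
      show (x.2.1 * G).IsHomogeneous (N + a + b)
      convert h2 using 1
  -- the kernel
  let K : R N →ₗ[k] V := LinearMap.prod
    (LinearMap.codRestrict (R (N + b)) ((LinearMap.mulRight k G).comp (R N).subtype) (by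
      intro x
      have h1 : (x.1).IsHomogeneous N := x.2
      exact h1.mul hG))
    (LinearMap.codRestrict (R (N + a)) (-((LinearMap.mulRight k F).comp (R N).subtype)) (by
      intro x
      have h1 : (x.1).IsHomogeneous N := x.2
      exact (h1.mul hF).neg))
  have hkerM : LinearMap.ker M ≤ LinearMap.range K := by
    intro x hx
    rw [LinearMap.mem_ker] at hx
    have h1 : x.1.1 * F + x.2.1 * G = 0 := by
      rw [← hM, hx]
    have h2 : G ∣ x.1.1 * F := by
      have : x.1.1 * F = -x.2.1 * G := by linear_combination h1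
      rw [this]; exact Dvd.intro_left _ rfl
    have h3 : G ∣ x.1.1 := (hrel.symm).dvd_of_dvd_mul_right h2
    obtain ⟨H, hH⟩ := h3
    have h4 : x.2.1 = - (H * F) := by
      have e1 : G * (H * F + x.2.1) = 0 := by
        rw [hH] at h1
        linear_combination h1
      rcases mul_eq_zero.1 e1 with h | h
      · exact absurd h hG0
      · linear_combination h
    have h5 : H.IsHomogeneous N := by
      by_cases hH0 : H = 0
      · rw [hH0]; exact isHomogeneous_zero _ _ _
      · have hx1 : (x.1.1).IsHomogeneous (N + b) := x.1.2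
        have hx0 : x.1.1 ≠ 0 := by
          rw [hH]; exact mul_ne_zero hG0 hH0
        have hHd := Pool.Agent.Chud.homog_of_dvd hx1 hx0 (Dvd.intro_left G hH.symm)
        have h6 := hG.mul hHd
        rw [← hH] at h6
        have h7 := h6.inj_right hx1 hx0
        have h8 : H.totalDegree = N := by omega
        rwa [h8] at hHd
    refine ⟨⟨H, h5⟩, ?_⟩
    apply Prod.ext
    · apply Subtype.ext
      show H * G = x.1.1
      rw [hH, mul_comm]
    · apply Subtype.ext
      show -(H * F) = x.2.1
      rw [h4]
  have hfr : ∀ m, Module.finrank k ↥(R m) = (m + 2).choose 2 := fun m =>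
    Pool.Agent.Chud.finrank_forms m
  have hfin : ∀ m, Module.Finite k ↥(R m) := fun m => Pool.Agent.Chud.finite_forms m
  have d1 : Module.finrank k (LinearMap.ker M) ≤ (N + 2).choose 2 := by
    calc Module.finrank k (LinearMap.ker M) ≤ Module.finrank k (LinearMap.range K) :=
          Submodule.finrank_mono hkerM
      _ ≤ Module.finrank k (R N) := LinearMap.finrank_range_le K
      _ = _ := hfr N
  have d2 := LinearMap.finrank_range_add_finrank_ker M
  have d3 : Module.finrank k V = (N + b + 2).choose 2 + (N + a + 2).choose 2 := by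
    show Module.finrank k ((R (N + b)) × (R (N + a))) = _
    rw [Module.finrank_prod, hfr, hfr]
  -- the binary forms
  let U : (Fin (N + a + b + 1) → k) →ₗ[k] MvPolynomial (Fin 3) k :=
    { toFun := fun c => ∑ i, C (c i) * (X l ^ (i : ℕ) * X 2 ^ (N + a + b - i))
      map_add' := fun c c' => by
        rw [← Finset.sum_add_distrib]
        exact Finset.sum_congr rfl fun i _ => by rw [Pi.add_apply, C_add, add_mul]
      map_smul' := fun t c => by
        rw [RingHom.id_apply, Finset.smul_sum]
        exact Finset.sum_congr rfl fun i _ => by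
          rw [Pi.smul_apply, smul_eq_mul, C_mul, mul_assoc, C_mul'] }
  have hU : ∀ c, U c = ∑ i, C (c i) * (X l ^ (i : ℕ) * X 2 ^ (N + a + b - i)) := fun c => rfl
  have hmono : ∀ (t : k) (i m : ℕ), C t * (X l ^ i * X 2 ^ m : MvPolynomial (Fin 3) k) =
      monomial (Finsupp.single l i + Finsupp.single 2 m) t := by
    intro t i m
    rw [X_pow_eq_monomial, X_pow_eq_monomial, monomial_mul, C_mul_monomial, one_mul, mul_one]
  have hUinj : Function.Injective U := by
    intro c c' hcc
    funext i
    have h1 := congrArg (coeff (Finsupp.single l (i : ℕ) +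
      Finsupp.single 2 (N + a + b - (i : ℕ)))) hcc
    have h2 : ∀ c : Fin (N + a + b + 1) → k, coeff (Finsupp.single l (i : ℕ) +
        Finsupp.single 2 (N + a + b - (i : ℕ))) (U c) = c i := by
      intro c
      rw [hU, coeff_sum, Finset.sum_eq_single i]
      · rw [hmono, coeff_monomial, if_pos rfl]
      · intro j _ hji
        rw [hmono, coeff_monomial, if_neg]
        intro h3
        have h4 := DFunLike.congr_fun h3 l
        simp only [Finsupp.add_apply, Finsupp.single_eq_same, Finsupp.single_eq_of_ne hl,
          Finsupp.single_eq_of_ne hl.symm, add_zero] at h4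
        exact hji (Fin.ext h4)
      · intro h
        exact absurd (Finset.mem_univ _) h
    rw [h2, h2] at h1
    exact h1
  have hUr : LinearMap.range U ≤ R (N + a + b) := by
    rintro _ ⟨c, rfl⟩
    rw [hU]
    refine IsHomogeneous.sum _ _ _ fun i _ => ?_
    rw [hmono]
    refine isHomogeneous_monomial _ ?_
    rw [map_add, Finsupp.degree_single, Finsupp.degree_single]
    have := i.2
    omega
  have d4 : Module.finrank k (LinearMap.range U) = N + a + b + 1 := by
    rw [LinearMap.finrank_range_of_inj hUinj, Module.finrank_fin_fun]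
  have d5 := Submodule.finrank_sup_add_finrank_inf_eq (LinearMap.range M) (LinearMap.range U)
  have d6 : Module.finrank k ↥(LinearMap.range M ⊔ LinearMap.range U) ≤
      (N + a + b + 2).choose 2 := by
    rw [← hfr]
    exact Submodule.finrank_mono (sup_le hMr hUr)
  have ch : ∀ m : ℕ, 2 * (m + 2).choose 2 = (m + 2) * (m + 1) := by
    intro m
    rw [Nat.choose_two_right]
    have : 2 ∣ (m + 2) * (m + 2 - 1) := (Nat.even_mul_pred_self (m + 2)).two_dvd
    rw [Nat.mul_div_cancel' this]
    rfl
  have c1 := ch (N + a + b)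
  have c2 := ch (N + a)
  have c3 := ch (N + b)
  have c4 := ch N
  have d7 : 0 < Module.finrank k ↥(LinearMap.range M ⊓ LinearMap.range U) := by
    by_contra hcon
    have e1 : Module.finrank k ↥(LinearMap.range M ⊓ LinearMap.range U) = 0 := by omega
    have e2 : (N + b + 2).choose 2 + (N + a + 2).choose 2 + (N + a + b + 1) ≤
        (N + a + b + 2).choose 2 + (N + 2).choose 2 := by omega
    nlinarith
  have d8 : Nontrivial ↥(LinearMap.range M ⊓ LinearMap.range U) :=
    Module.finrank_pos_iff.1 d7
  obtain ⟨⟨g, hg1, hg2⟩, hg0⟩ := exists_ne (0 : ↥(LinearMap.range M ⊓ LinearMap.range U))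
  obtain ⟨x, hx⟩ := hg1
  obtain ⟨c, hc⟩ := hg2
  refine ⟨N + a + b, c, ?_, x.1.1, x.2.1, ?_⟩
  · rintro rfl
    apply hg0
    apply Subtype.ext
    show g = 0
    rw [← hc, map_zero]
  · rw [← hM, hx, ← hc, hU]

end Pool.Agent.TH167.TT
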