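import Pool.Agent.TH167.TT.Core2

set_option autoImplicit false

/-!
# Systems with at most nine multiplicities larger than two
-/

namespace Pool.Agent.TH167.TT

open MvPolynomial Pool.Agent.W609 Pool.Agent.W609.CR Pool.Agent.TH167.SH

/-- The class with one more simple point. -/
def ext1 {r : ℕ} (w : Fin (r + 4) → ℕ) (x : ℕ) : Fin (r + 1 + 4) → ℕ :=
  fun j => if h : j.1 < r + 4 then w ⟨j.1, h⟩ else x

theorem ext1_chi {r : ℕ} (w : Fin (r + 4) → ℕ) (d : ℕ) : chi d (ext1 w 1) = chi d w - 1 := by
  rw [chi_cast, chi_cast]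
  have h : ∑ j, (ext1 w 1 j + 1).choose 2 = ∑ j, (w j + 1).choose 2 + 1 := by
    have h1 := Fin.sum_univ_castSucc (n := r + 4) (fun j => (ext1 w 1 j + 1).choose 2)
    refine h1.trans ?_
    congr 1
    · refine Finset.sum_congr rfl fun j _ => ?_
      have : ext1 w 1 j.castSucc = w j := by
        unfold ext1
        have hlt : (j.castSucc : Fin (r + 4 + 1)).1 < r + 4 := j.2
        exact dif_pos hlt
      rw [this]
    · have : ext1 w 1 (Fin.last (r + 4)) = 1 := by
        unfold ext1
        rw [dif_neg]
        exact Nat.lt_irrefl (r + 4)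
      rw [this]
      rfl
  rw [h]
  push_cast
  ring

theorem core9n : ∀ (n r d : ℕ) (w : Fin (r + 4) → ℕ) (S : Finset (Fin (r + 4)))
    (_ : Reduced d w) (_ : S.card ≤ 9) (_ : ∀ j, j ∉ S → w j ≤ 2)
    (K : Type) [Field K] [CharZero K] (P : Fin (r + 4) → Fin 2 → K)
    (_ : AlgebraicIndependent ℚ (fun ij : Fin (r + 4) × Fin 2 => P ij.1 ij.2))
    (_ : Module.finrank K ↥(VS (fun j => aff (P j)) w d) = n + 1),
    chi d w = n + 1 := by
  classical
  intro n
  induction n with
  | zero =>
    intro r d w S hred hSc hS K _ _ P hP h1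
    rw [core9 d K P hP w hred S hSc hS h1]
    rfl
  | succ n ih =>
    intro r d w S hred hSc hS K _ _ P hP h1
    rcases Nat.lt_or_ge (Finset.univ.filter fun j => w j ≠ 0).card 3 with h3 | h3
    · have h4 := nine hP hred (by omega)
      rw [chi_cast]
      omega
    · obtain ⟨K0, i1, i2, P0, hP0⟩ := exists_generic (r + 1 + 4)
      let P0' : Fin (r + 4) → Fin 2 → K0 := fun j => P0 ⟨j.1, by omega⟩
      have hP0' : AlgebraicIndependent ℚ (fun ij : Fin (r + 4) × Fin 2 => P0' ij.1 ij.2) := by
        have h4 := hP0.comp (fun ij : Fin (r + 4) × Fin 2 =>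
          ((⟨ij.1.1, by omega⟩ : Fin (r + 1 + 4)), ij.2)) (by
            rintro ⟨a, b⟩ ⟨a', b'⟩ h
            have e1 := congrArg (fun x : Fin (r + 1 + 4) × Fin 2 => x.1.1) h
            have e2 := congrArg Prod.snd h
            exact Prod.ext (Fin.ext e1) e2)
        exact h4
      have h5 := gen_eq hP0' hP w d
      rw [h1] at h5
      have h6 : VS (fun j => aff (P0 j)) (ext1 w 0) d = VS (fun j => aff (P0' j)) w d := by
        ext f
        rw [mem_VS, mem_VS]
        constructor
        · rintro ⟨a1, a2⟩
          refine ⟨a1, fun j => ?_⟩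
          have a3 := a2 ⟨j.1, by omega⟩
          unfold ext1 at a3
          rw [dif_pos j.2] at a3
          exact a3
        · rintro ⟨a1, a2⟩
          refine ⟨a1, fun j => ?_⟩
          unfold ext1
          split_ifs with hj
          · exact a2 ⟨j.1, hj⟩
          · exact van_zero _ _
      let L : Fin (r + 1 + 4) := ⟨r + 4, by omega⟩
      have hL0 : ext1 w 0 L = 0 := by
        unfold ext1
        rw [dif_neg]
        exact Nat.lt_irrefl (r + 4)
      have hupd : Function.update (ext1 w 0) L 1 = ext1 w 1 := by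
        funext j
        by_cases hj : j = L
        · subst hj
          rw [Function.update_self]
          unfold ext1
          rw [dif_neg]
          exact Nat.lt_irrefl (r + 4)
        · rw [Function.update_of_ne hj]
          unfold ext1
          have : j.1 < r + 4 := by
            have h7 := j.2
            have h8 : j.1 ≠ r + 4 := fun h => hj (Fin.ext h)
            omega
          rw [dif_pos this, dif_pos this]
      have h7 := simple_drop hP0 hL0 (d := d) (by rw [h6, h5]; omega)
      have h8 := simple_le P0 hL0 d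
      rw [hupd, h6, h5] at h7 h8
      have hpair : ∀ i j : Fin (r + 4), i ≠ j → w i + w j + 1 ≤ d := by
        intro i j hij
        obtain ⟨l, hl1, hl2⟩ := Finset.exists_mem_notMem_of_card_lt_card
          (s := ({i, j} : Finset (Fin (r + 4)))) (t := Finset.univ.filter fun j => w j ≠ 0)
          (lt_of_le_of_lt (Finset.card_insert_le _ _) (by rw [Finset.card_singleton]; omega))
        rw [Finset.mem_filter] at hl1
        rw [Finset.mem_insert, Finset.mem_singleton] at hl2
        push Not at hl2
        have := hred i j l hij (Ne.symm hl2.1) (Ne.symm hl2.2)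
        omega
      have hred' : Reduced d (ext1 w 1) := by
        intro i j k hij hik hjk
        have e1 : i.1 ≠ j.1 := fun h => hij (Fin.ext h)
        have e2 : i.1 ≠ k.1 := fun h => hik (Fin.ext h)
        have e3 : j.1 ≠ k.1 := fun h => hjk (Fin.ext h)
        have f1 := i.2
        have f2 := j.2
        have f3 := k.2
        unfold ext1
        by_cases g1 : i.1 < r + 4
        · by_cases g2 : j.1 < r + 4
          · by_cases g3 : k.1 < r + 4
            · rw [dif_pos g1, dif_pos g2, dif_pos g3]
              exact hred _ _ _ (fun h => e1 (Fin.mk.inj h)) (fun h => e2 (Fin.mk.inj h))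
                (fun h => e3 (Fin.mk.inj h))
            · rw [dif_pos g1, dif_pos g2, dif_neg g3]
              exact hpair _ _ (fun h => e1 (Fin.mk.inj h))
          · have g3 : k.1 < r + 4 := by omega
            rw [dif_pos g1, dif_neg g2, dif_pos g3]
            have := hpair ⟨i.1, g1⟩ ⟨k.1, g3⟩ (fun h => e2 (Fin.mk.inj h))
            omega
        · have g2 : j.1 < r + 4 := by omega
          have g3 : k.1 < r + 4 := by omega
          rw [dif_neg g1, dif_pos g2, dif_pos g3]
          have := hpair ⟨j.1, g2⟩ ⟨k.1, g3⟩ (fun h => e3 (Fin.mk.inj h))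
          omega
      have h9 := ih (r + 1) d (ext1 w 1) (S.image fun j => (⟨j.1, by omega⟩ : Fin (r + 1 + 4)))
        hred' (Finset.card_image_le.trans hSc) (by
          intro j hj
          unfold ext1
          split_ifs with hj2
          · refine hS _ fun hjS => hj ?_
            rw [Finset.mem_image]
            exact ⟨⟨j.1, hj2⟩, hjS, rfl⟩
          · omega) K0 P0 hP0 (by omega)
      rw [ext1_chi] at h9
      push_cast
      omega

/-- Nonempty systems with reduced class and at most nine multiplicities larger than two. -/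
theorem red9 {r d : ℕ} {w : Fin (r + 4) → ℕ} {S : Finset (Fin (r + 4))}
    (hred : Reduced d w) (hSc : S.card ≤ 9) (hS : ∀ j, j ∉ S → w j ≤ 2)
    {K : Type} [Field K] [CharZero K] {P : Fin (r + 4) → Fin 2 → K}
    (hP : AlgebraicIndependent ℚ (fun ij : Fin (r + 4) × Fin 2 => P ij.1 ij.2))
    (hpos : 0 < Module.finrank K ↥(VS (fun j => aff (P j)) w d)) :
    (Module.finrank K ↥(VS (fun j => aff (P j)) w d) : ℤ) = chi d w := by
  obtain ⟨n, hn⟩ : ∃ n, Module.finrank K ↥(VS (fun j => aff (P j)) w d) = n + 1 :=
    ⟨Module.finrank K ↥(VS (fun j => aff (P j)) w d) - 1, by omega⟩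
  rw [core9n n r d w S hred hSc hS K P hP hn, hn]
  push_cast
  rfl

/-- Irreducible curves with at most nine multiplicities larger than two. -/
theorem prime9 {r e : ℕ} {w : Fin (r + 4) → ℕ} {S : Finset (Fin (r + 4))}
    (hSc : S.card ≤ 9) (hS : ∀ j, j ∉ S → w j ≤ 2)
    {K : Type} [Field K] [CharZero K] {P : Fin (r + 4) → Fin 2 → K}
    (hP : AlgebraicIndependent ℚ (fun ij : Fin (r + 4) × Fin 2 => P ij.1 ij.2))
    {G : MvPolynomial (Fin 3) K} (hG : Irreducible G) (hGe : G.IsHomogeneous e)
    (hord : ∀ j, Ord (aff (P j)) (w j) G) :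
    (Module.finrank K ↥(VS (fun j => aff (P j)) w e) : ℤ) = chi e w ∧
      (ip e w e w < 0 → ip e w e w = -1 ∧ kk e w = 1) := by
  rcases irr_red e P hP w G hG hGe hord with ⟨c1, c2, c3⟩ | ⟨P1, e1, w1, G1, a1, a2, a3, a4, a5,
    a6, a7, a8, a9⟩
  · exact ⟨c1, fun _ => ⟨c2, c3⟩⟩
  · obtain ⟨q1, q2, q3⟩ := quad_inv a5
    simp only at q1 q2 q3
    have hpos := pos_of_mem ((mem_VS _ _ _ _).2 ⟨a3, fun j => (a4 j).1⟩) a2.ne_zero
    have h2 := red9 a6 hSc (fun j hj => (a7 j).trans (hS j hj)) a1 hpos
    have h3 : (Module.finrank K ↥(VS (fun j => aff (P j)) w e) : ℤ) = chi e w := by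
      rw [← q1, ← a9]
      exact h2
    refine ⟨h3, fun hneg => ?_⟩
    exfalso
    have h4 := two_chi e1 w1
    have h5 : 0 ≤ kk e1 w1 := by omega
    rw [kk_cast] at h5
    have h6 := red_ip a6 (fun j => van_le a2.ne_zero a3 (a4 j).1) (by omega)
    omega

end Pool.Agent.TH167.TT
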