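import Pool.Agent.TH167.TT.Main2
import Pool.Agent.TH167.SH.Irr

set_option autoImplicit false

/-!
# Reduction of irreducible curves
-/

namespace Pool.Agent.TH167.TT

open MvPolynomial Pool.Agent.W609 Pool.Agent.W609.CR Pool.Agent.TH167.SH

theorem few_self {s e : ℕ} {w : Fin s → ℕ} (h : ∀ j, w j ≤ e) : Few e e w := by
  left
  have : (Finset.univ.filter fun i => e < w i) = ∅ := by
    rw [Finset.filter_eq_empty_iff]
    intro j _
    have := h j
    omega
  rw [this]
  simp

theorem irr_red {K : Type} [Field K] [CharZero K] {r : ℕ} :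
    ∀ (e : ℕ) (P : Fin (r + 4) → Fin 2 → K)
      (_ : AlgebraicIndependent ℚ (fun ij : Fin (r + 4) × Fin 2 => P ij.1 ij.2))
      (w : Fin (r + 4) → ℕ)
      (G : MvPolynomial (Fin 3) K) (_ : Irreducible G) (_ : G.IsHomogeneous e)
      (_ : ∀ j, Ord (aff (P j)) (w j) G),
      ((Module.finrank K ↥(VS (fun j => aff (P j)) w e) : ℤ) = chi e w ∧
        ip e w e w = -1 ∧ kk e w = 1) ∨
      ∃ (P1 : Fin (r + 4) → Fin 2 → K) (e1 : ℕ) (w1 : Fin (r + 4) → ℕ)
        (G1 : MvPolynomial (Fin 3) K),
        AlgebraicIndependent ℚ (fun ij : Fin (r + 4) × Fin 2 => P1 ij.1 ij.2) ∧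
        Irreducible G1 ∧ G1.IsHomogeneous e1 ∧ (∀ j, Ord (aff (P1 j)) (w1 j) G1) ∧
        Relation.ReflTransGen Quad (e, w) (e1, w1) ∧ Reduced e1 w1 ∧
        (∀ j, w1 j ≤ w j) ∧ e1 ≤ e ∧
        Module.finrank K ↥(VS (fun j => aff (P1 j)) w1 e1) =
          Module.finrank K ↥(VS (fun j => aff (P j)) w e) := by
  classical
  intro e
  induction e using Nat.strong_induction_on with
  | _ e ih =>
    intro P hP w G hG hGe hord
    have he0 := deg_pos hG hGe
    have hwd : ∀ j, w j ≤ e := fun j => van_le hG.ne_zero hGe (hord j).1
    by_cases hpair : ∀ i j, i ≠ j → w i + w j ≤ e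
    · by_cases hred : Reduced e w
      · right
        exact ⟨P, e, w, G, hP, hG, hGe, hord, Relation.ReflTransGen.refl, hred, fun _ => le_rfl,
          le_rfl, rfl⟩
      · -- a quadratic transformation
        obtain ⟨i, hinj, p, -, hlt, hwle⟩ := exists_step (few_self hwd) hred hpair
        obtain ⟨P', hP', hr⟩ := exists_crel hP hinj
        have hdim := hr.dim p
        obtain ⟨G', hG', hGe', hord'⟩ := hr.irr hG hGe hord p.p01 p.p02 p.p12
        have hq : Relation.ReflTransGen Quad (e, w) (cd i e w, wcr e i w) :=
          Relation.ReflTransGen.single ⟨i, hinj, p, rfl⟩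
        obtain ⟨c1, c2, c3⟩ := quad_inv hq
        simp only at c1 c2 c3
        rcases ih (cd i e w) hlt P' hP' (wcr e i w) G' hG' hGe' hord' with h | h
        · left
          rw [hdim, c1, c2, c3] at h
          exact h
        · right
          rw [hdim] at h
          obtain ⟨P1, e1, w1, G1, a1, a2, a3, a4, a5, a6, a7, a8, a9⟩ := h
          exact ⟨P1, e1, w1, G1, a1, a2, a3, a4, hq.trans a5, a6,
            fun j => (a7 j).trans (hwle j), by omega, a9⟩
    · -- a line
      left
      push Not at hpair
      obtain ⟨a, b, hab, hlt⟩ := hpair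
      rcases pair_irr (inj_of_alg hP) hG hGe hord hab with h | ⟨he1, ha, hb⟩
      · omega
      · subst he1
        have ha1 : w a = 1 := le_antisymm (hwd a) ha
        have hb1 : w b = 1 := le_antisymm (hwd b) hb
        have hz : ∀ l, l ≠ a → l ≠ b → w l = 0 := by
          intro l hla hlb
          by_contra hne
          have h1 : 1 ≤ w l := Nat.one_le_iff_ne_zero.2 hne
          refine line_two hP hG.ne_zero hGe ![a, b, l] (inj_cons hab hla.symm hlb.symm) ?_
          intro k
          fin_cases k
          · exact van_mono ha (hord a).1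
          · exact van_mono hb (hord b).1
          · exact van_mono h1 (hord l).1
        have hwe : w = fun l => if l = a ∨ l = b then 1 else 0 := by
          funext l
          by_cases h : l = a ∨ l = b
          · rw [if_pos h]
            rcases h with h | h
            · rw [h, ha1]
            · rw [h, hb1]
          · rw [if_neg h]
            push Not at h
            exact hz l h.1 h.2
        have hE := exc_line hP hab
        rw [← hwe] at hE
        have hs1 := self_iff.1 hE.self
        have hs2 := can_iff.1 hE.can
        refine ⟨?_, hs1, hs2⟩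
        have h3 := line_k hP hab 1 w 1 le_rfl ha hb (by omega)
        have h4 : sb a b 1 w = fun _ => 0 := by
          funext l
          unfold sb
          by_cases h : l = a ∨ l = b
          · rw [if_pos h]
            rcases h with h | h
            · rw [h, ha1]
            · rw [h, hb1]
          · rw [if_neg h]
            push Not at h
            exact hz l h.1 h.2
        rw [h3, h4, vs_zero]
        have h5 := two_chi 1 w
        rw [hs1, hs2] at h5
        have h6 : chi 1 w = 1 := by omega
        rw [h6]
        rfl

end Pool.Agent.TH167.TT
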