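import Pool.Agent.TH167.TT.Cusp
import Pool.Agent.TH167.SH.Irr

set_option autoImplicit false

/-!
# Reduced classes supported on at most nine points
-/

namespace Pool.Agent.TH167.TT

open MvPolynomial Pool.Agent.W609 Pool.Agent.W609.CR Pool.Agent.TH167.SH Pool.Agent.H248R5

theorem red_three {r d : ℕ} {w : Fin (r + 4) → ℕ} (hred : Reduced d w) {S : Finset (Fin (r + 4))}
    (hS : S.card ≤ 3) : ∑ j ∈ S, w j ≤ d := by
  classical
  obtain ⟨T, hST, -, hT⟩ := Finset.exists_subsuperset_card_eq (Finset.subset_univ S) hS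
    (by rw [Finset.card_univ, Fintype.card_fin]; omega)
  obtain ⟨a, b, c, hab, hac, hbc, rfl⟩ := Finset.card_eq_three.1 hT
  refine (Finset.sum_le_sum_of_subset hST).trans ?_
  rw [Finset.sum_insert (by simp [hab, hac]), Finset.sum_insert (by simp [hbc]),
    Finset.sum_singleton]
  have := hred a b c hab hac hbc
  omega

theorem red_sum {r d : ℕ} {w : Fin (r + 4) → ℕ} (hred : Reduced d w) :
    ∀ (n : ℕ) (S : Finset (Fin (r + 4))), S.card ≤ 3 * n → ∑ j ∈ S, w j ≤ n * d := by
  classical
  intro n
  induction n with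
  | zero =>
    intro S hS
    have : S = ∅ := Finset.card_eq_zero.1 (by omega)
    rw [this]
    simp
  | succ n ih =>
    intro S hS
    rcases Nat.lt_or_ge S.card 4 with h | h
    · have := red_three hred (S := S) (by omega)
      nlinarith
    · obtain ⟨T, hT, hT3⟩ := Finset.exists_subset_card_eq (show 3 ≤ S.card by omega)
      have h1 := red_three hred (S := T) (by omega)
      have h2 := ih (S \ T) (by rw [Finset.card_sdiff_of_subset hT]; omega)
      have h3 := Finset.sum_sdiff hT (f := w)
      nlinarith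

theorem red_sub {r d : ℕ} {w : Fin (r + 4) → ℕ} (hred : Reduced d w)
    (h3 : 3 ≤ (Finset.univ.filter fun j => w j ≠ 0).card) :
    3 ≤ d ∧ Reduced (d - 3) (fun j => w j - 1) := by
  classical
  have key : ∀ A : Finset (Fin (r + 4)), A.card ≤ 3 → (∀ j ∈ A, w j ≠ 0) →
      ∑ j ∈ A, (w j - 1) + 3 ≤ d := by
    intro A hA hA'
    obtain ⟨T, hAT, hTs, hT⟩ := Finset.exists_subsuperset_card_eq
      (show A ⊆ Finset.univ.filter fun j => w j ≠ 0 from fun j hj => by
        rw [Finset.mem_filter]
        exact ⟨Finset.mem_univ _, hA' j hj⟩) hA h3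
    have h1 := red_three hred (S := T) (by omega)
    have h2 : ∑ j ∈ T, (w j - 1) + T.card = ∑ j ∈ T, w j := by
      rw [Finset.card_eq_sum_ones, ← Finset.sum_add_distrib]
      refine Finset.sum_congr rfl fun j hj => ?_
      have := (Finset.mem_filter.1 (hTs hj)).2
      omega
    have h4 := Finset.sum_le_sum_of_subset (f := fun j => w j - 1) hAT
    omega
  refine ⟨by have := key ∅ (by simp) (by simp); omega, ?_⟩
  intro i j k hij hik hjk
  have h1 := key (({i, j, k} : Finset (Fin (r + 4))).filter fun j => w j ≠ 0)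
    ((Finset.card_filter_le _ _).trans Finset.card_le_three) (by
      intro l hl
      exact (Finset.mem_filter.1 hl).2)
  have h2 : ∑ l ∈ ({i, j, k} : Finset (Fin (r + 4))).filter (fun j => w j ≠ 0), (w l - 1) =
      ∑ l ∈ ({i, j, k} : Finset (Fin (r + 4))), (w l - 1) := by
    rw [Finset.sum_filter]
    refine Finset.sum_congr rfl fun l _ => ?_
    split_ifs with h
    · rfl
    · omega
  rw [h2, Finset.sum_insert (by simp [hij, hik]), Finset.sum_insert (by simp [hjk]),
    Finset.sum_singleton] at h1
  show w i - 1 + (w j - 1) + (w k - 1) ≤ d - 3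
  omega

/-- Reduced classes supported on at most nine points, at points of the cuspidal cubic. -/
theorem nine_cusp {r : ℕ} : ∀ (d : ℕ) (w : Fin (r + 4) → ℕ), Reduced d w →
    (Finset.univ.filter fun j => w j ≠ 0).card ≤ 9 →
    Module.finrank ℚ ↥(VS (fun j : Fin (r + 4) => aff (cpt ((j.1 + 1 : ℕ) : ℚ))) w d) +
      ∑ j, (w j + 1).choose 2 ≤ (d + 2).choose 2 := by
  classical
  intro d
  induction d using Nat.strong_induction_on with
  | _ d ih =>
    intro w hred h9
    have hsupp : ∑ j, w j = ∑ j ∈ Finset.univ.filter (fun j => w j ≠ 0), w j := by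
      rw [Finset.sum_filter]
      refine Finset.sum_congr rfl fun j _ => ?_
      split_ifs with h
      · rfl
      · omega
    have hinj : Function.Injective fun j : Fin (r + 4) => ((j.1 + 1 : ℕ) : ℚ) := by
      intro i j hij
      have h1 : ((i.1 + 1 : ℕ) : ℚ) = ((j.1 + 1 : ℕ) : ℚ) := hij
      have h2 : i.1 + 1 = j.1 + 1 := by exact_mod_cast h1
      exact Fin.ext (by omega)
    rcases Nat.lt_or_ge (Finset.univ.filter fun j => w j ≠ 0).card 3 with h3 | h3
    · refine sum_le_dim (P := fun j : Fin (r + 4) => cpt ((j.1 + 1 : ℕ) : ℚ)) ?_ w ?_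
      · intro i j hij
        have h1 := congrFun hij 0
        simp only [cpt, Matrix.cons_val_zero] at h1
        exact hinj h1
      · rw [hsupp]
        exact red_three hred (by omega)
    · obtain ⟨hd, hred'⟩ := red_sub hred h3
      have hsum : ∑ j, w j ≤ 3 * d := by
        rw [hsupp]
        exact red_sum hred 3 _ (by omega)
      have hpos : 0 < ∑ j, w j := by
        by_contra hcon
        have h1 : ∑ j, w j = 0 := by omega
        rw [Finset.sum_eq_zero_iff] at h1
        have h2 : (Finset.univ.filter fun j => w j ≠ 0) = ∅ := by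
          rw [Finset.filter_eq_empty_iff]
          intro j hj
          rw [not_not]
          exact h1 j hj
        rw [h2] at h3
        simp at h3
      have h4 := cusp_step hinj (w := w) (d := d) (by omega) hsum (by
        intro _
        have h5 : (0 : ℚ) < ∑ j, (w j : ℚ) * ((j.1 + 1 : ℕ) : ℚ) := by
          have h6 : ((∑ j, w j : ℕ) : ℚ) ≤ ∑ j, (w j : ℚ) * ((j.1 + 1 : ℕ) : ℚ) := by
            push_cast
            refine Finset.sum_le_sum fun j _ => ?_
            have h7 : (0 : ℚ) ≤ (w j : ℚ) * (j.1 : ℚ) := by positivity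
            nlinarith
          have h7 : (0 : ℚ) < ((∑ j, w j : ℕ) : ℚ) := by exact_mod_cast hpos
          linarith
        exact h5.ne')
      have h5 := ih (d - 3) (by omega) (fun j => w j - 1) hred' (by
        refine (Finset.card_le_card fun j hj => ?_).trans h9
        rw [Finset.mem_filter] at hj ⊢
        exact ⟨hj.1, by omega⟩)
      have h6 : ∀ x : ℕ, (x + 1).choose 2 = (x - 1 + 1).choose 2 + x := by
        intro x
        rcases Nat.eq_zero_or_pos x with rfl | hx
        · rfl
        · rw [Nat.sub_add_cancel hx]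
          have h7 : (x + 1).choose 2 = x.choose 1 + x.choose 2 := Nat.choose_succ_succ' x 1
          rw [Nat.choose_one_right] at h7
          omega
      have h7 : ∑ j, (w j + 1).choose 2 = ∑ j, (w j - 1 + 1).choose 2 + ∑ j, w j := by
        rw [← Finset.sum_add_distrib]
        exact Finset.sum_congr rfl fun j _ => h6 (w j)
      have h8 : (d + 2).choose 2 = (d - 3 + 2).choose 2 + 3 * d := by
        obtain ⟨d', rfl⟩ : ∃ d', d = d' + 3 := ⟨d - 3, by omega⟩
        have a1 : (d' + 5).choose 2 = (d' + 4).choose 1 + (d' + 4).choose 2 :=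
          Nat.choose_succ_succ' (d' + 4) 1
        have a2 : (d' + 4).choose 2 = (d' + 3).choose 1 + (d' + 3).choose 2 :=
          Nat.choose_succ_succ' (d' + 3) 1
        have a3 : (d' + 3).choose 2 = (d' + 2).choose 1 + (d' + 2).choose 2 :=
          Nat.choose_succ_succ' (d' + 2) 1
        rw [Nat.choose_one_right] at a1 a2 a3
        have e1 : d' + 3 + 2 = d' + 5 := by omega
        have e2 : d' + 3 - 3 + 2 = d' + 2 := by omega
        rw [e1, e2]
        omega
      beta_reduce at h4 h5
      omega

/-- Reduced classes supported on at most nine generic points. -/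
theorem nine {K : Type} [Field K] [CharZero K] {r : ℕ} {P : Fin (r + 4) → Fin 2 → K}
    (hP : AlgebraicIndependent ℚ (fun ij : Fin (r + 4) × Fin 2 => P ij.1 ij.2)) {d : ℕ}
    {w : Fin (r + 4) → ℕ} (hred : Reduced d w)
    (h9 : (Finset.univ.filter fun j => w j ≠ 0).card ≤ 9) :
    Module.finrank K ↥(VS (fun j => aff (P j)) w d) + ∑ j, (w j + 1).choose 2 =
      (d + 2).choose 2 := by
  have h1 := semi hP (fun j : Fin (r + 4) => cpt ((j.1 + 1 : ℕ) : ℚ)) w d
  have h2 := nine_cusp d w hred h9
  have h3 := chi_le_dim P d w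
  rw [chi_cast] at h3
  omega

end Pool.Agent.TH167.TT
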