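import Pool.Agent.TH167.TT.Sing
import Pool.Agent.H248R6.Move
import Pool.Agent.H248R6.Der

set_option autoImplicit false

/-!
# Moving the points of a rigid curve
-/

namespace Pool.Agent.TH167.TT

open MvPolynomial Pool.Agent.W609 Pool.Agent.W609.CR Pool.Agent.TH167.SH Pool.Agent.H248R5
  Pool.Agent.H248R6

theorem exists_D {K : Type} [Field K] [CharZero K] {s : ℕ} {P : Fin s → Fin 2 → K}
    (hP : AlgebraicIndependent ℚ (fun ij : Fin s × Fin 2 => P ij.1 ij.2)) :
    ∃ D : Fin s × Fin 2 → Derivation ℚ K K,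
      ∀ x i b, D x (P i b) = if i = x.1 ∧ b = x.2 then 1 else 0 := by
  choose D hD using exists_der _ hP
  refine ⟨D, fun x i b => ?_⟩
  split_ifs with h
  · exact (hD x (i, b)).1 (by rw [h.1, h.2])
  · exact (hD x (i, b)).2 (fun h1 => h ⟨by rw [h1], by rw [h1]⟩)

/-- The unique form of a system whose space has dimension one: derivations kill it. -/
theorem rigid_der {K : Type} [Field K] [CharZero K] {s : ℕ} {P : Fin s → Fin 2 → K}
    {w : Fin s → ℕ} {d : ℕ} (h1 : Module.finrank K ↥(VS (fun j => aff (P j)) w d) = 1)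
    {f : MvPolynomial (Fin 3) K} (hf : f ∈ VS (fun j => aff (P j)) w d)
    {μ : Fin 3 →₀ ℕ} (hμ : coeff μ f = 1) (D : Derivation ℚ K K)
    (hD : dG D f ∈ VS (fun j => aff (P j)) w d) : dG D f = 0 := by
  have hf0 : (⟨f, hf⟩ : ↥(VS (fun j => aff (P j)) w d)) ≠ 0 := by
    intro h
    have h2 : f = 0 := congrArg Subtype.val h
    rw [h2, coeff_zero] at hμ
    exact zero_ne_one hμ
  obtain ⟨c, hc⟩ := (finrank_eq_one_iff_of_nonzero' _ hf0).1 h1 ⟨dG D f, hD⟩
  have h2 : c • f = dG D f := congrArg Subtype.val hc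
  have h3 := congrArg (coeff μ) h2
  rw [coeff_smul, coeff_dG, hμ, D.map_one_eq_zero, smul_eq_mul, mul_one] at h3
  rw [← h2, h3, zero_smul]

theorem exists_norm {K : Type} [Field K] {s : ℕ} {P : Fin s → Fin 2 → K}
    {w : Fin s → ℕ} {d : ℕ} {f : MvPolynomial (Fin 3) K}
    (hf : f ∈ VS (fun j => aff (P j)) w d) (hf0 : f ≠ 0) :
    ∃ (c : K) (μ : Fin 3 →₀ ℕ), c ≠ 0 ∧ coeff μ (C c * f) = 1 ∧
      C c * f ∈ VS (fun j => aff (P j)) w d := by
  obtain ⟨μ, hμ⟩ := MvPolynomial.ne_zero_iff.1 hf0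
  refine ⟨(coeff μ f)⁻¹, μ, inv_ne_zero hμ, ?_, ?_⟩
  · rw [coeff_C_mul, inv_mul_cancel₀ hμ]
  · rw [C_mul']
    exact Submodule.smul_mem _ _ hf

theorem van_forms {K : Type} [Field K] {s : ℕ} {P : Fin s → Fin 2 → K}
    {w : Fin s → ℕ} {d : ℕ} {f : MvPolynomial (Fin 3) K} :
    f ∈ VS (fun j => aff (P j)) w d ↔ f ∈ forms w P d := mem_forms_VS

theorem vs_le {K : Type} [Field K] {s : ℕ} {P : Fin s → Fin 2 → K}
    {w w' : Fin s → ℕ} {d : ℕ} (h : ∀ j, w' j ≤ w j) :
    VS (fun j => aff (P j)) w d ≤ VS (fun j => aff (P j)) w' d := by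
  intro f hf
  rw [mem_VS] at hf ⊢
  exact ⟨hf.1, fun j => van_mono (h j) (hf.2 j)⟩

theorem exists_ord {K : Type} [Field K] {p : Fin 2 → K} {f : MvPolynomial (Fin 3) K} {d : ℕ}
    (hf0 : f ≠ 0) (hf : f.IsHomogeneous d) : ∃ m, Ord (aff p) m f := by
  classical
  by_contra hcon
  push Not at hcon
  have h : ∀ m, Van (aff p) m f := by
    intro m
    induction m with
    | zero => exact van_zero _ _
    | succ m ih =>
      by_contra h2
      exact hcon m ⟨ih, h2⟩
  have := van_le hf0 hf (h (d + 1))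
  omega

/-- The unique form of a rigid system at generic points has exactly the assigned multiplicities. -/
theorem exact_ord {K : Type} [Field K] [CharZero K] {s : ℕ} {P : Fin s → Fin 2 → K}
    (hP : AlgebraicIndependent ℚ (fun ij : Fin s × Fin 2 => P ij.1 ij.2))
    {w : Fin s → ℕ} {d : ℕ} (h1 : Module.finrank K ↥(VS (fun j => aff (P j)) w d) = 1)
    {f : MvPolynomial (Fin 3) K} (hf : f ∈ VS (fun j => aff (P j)) w d) (hf0 : f ≠ 0)
    (j : Fin s) : Ord (aff (P j)) (w j) f := by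
  classical
  refine ⟨((mem_VS _ _ _ _).1 hf).2 j, fun hvan => ?_⟩
  obtain ⟨c, μ, hc, hμ, hcf⟩ := exists_norm hf hf0
  obtain ⟨g, hg⟩ : ∃ g, g = C c * f := ⟨_, rfl⟩
  rw [← hg] at hμ hcf
  have hg0 : g ≠ 0 := by
    rw [hg]
    exact mul_ne_zero (fun h => hc (by rwa [C_eq_zero] at h)) hf0
  have hgh := ((mem_VS _ _ _ _).1 hcf).1
  have hgv : Van (aff (P j)) (w j + 1) g := by
    rw [hg]
    exact Ideal.mul_mem_left _ _ hvan
  obtain ⟨m', hm'⟩ := exists_ord (p := P j) hg0 hgh
  have hlt : w j + 1 ≤ m' := by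
    by_contra hlt
    exact hm'.2 (van_mono (by omega) hgv)
  obtain ⟨m, rfl⟩ : ∃ m, m' = m + 1 := ⟨m' - 1, by omega⟩
  obtain ⟨D, hD⟩ := exists_D hP
  have hg1 : g ∈ forms (Function.update w j (m + 1)) P d := by
    rw [← mem_forms_VS, mem_VS]
    refine ⟨hgh, fun i => ?_⟩
    by_cases hi : i = j
    · subst hi
      rw [Function.update_self]
      exact hm'.1
    · rw [Function.update_of_ne hi]
      exact ((mem_VS _ _ _ _).1 hcf).2 i
  have key : ∀ a : Fin 2, pderiv a (homogeneousComponent (m + 1) (tau (P j) g)) = 0 := by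
    intro a
    obtain ⟨k1, k2⟩ := move (w := Function.update w j (m + 1)) (P := P) (d := d) (k := j) (m := m)
      (Function.update_self _ _ _) (a := a) (D (j, a)) (fun i b => hD (j, a) i b) hg1
    have k3 : dG (D (j, a)) g ∈ VS (fun j => aff (P j)) w d := by
      rw [← mem_forms_VS] at k1
      refine vs_le (fun i => ?_) k1
      by_cases hi : i = j
      · subst hi
        rw [Function.update_self]
        omega
      · rw [Function.update_of_ne hi, Function.update_of_ne hi]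
    have k4 := rigid_der h1 hcf hμ _ k3
    rw [k4, map_zero, map_zero] at k2
    exact neg_eq_zero.1 k2.symm
  have h2 : homogeneousComponent (m + 1) (tau (P j) g) = 0 := by
    have h3 : (homogeneousComponent (m + 1) (tau (P j) g)).IsHomogeneous (m + 1) :=
      homogeneousComponent_isHomogeneous _ _
    have h4 := h3.sum_X_mul_pderiv
    rw [Finset.sum_eq_zero (fun l _ => by rw [key, mul_zero]), nsmul_eq_mul] at h4
    rcases mul_eq_zero.1 h4.symm with h5 | h5
    · exfalso
      have : ((m + 1 : ℕ) : MvPolynomial (Fin 2) K) ≠ 0 := by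
        exact_mod_cast Nat.succ_ne_zero m
      exact this h5
    · exact h5
  apply hm'.2
  rw [van_tau hgh, mem_pow_idealOfVars_iff']
  intro σ hσ
  have h3 := (van_tau hgh).1 hm'.1
  rw [mem_pow_idealOfVars_iff'] at h3
  rcases Nat.lt_or_ge σ.degree (m + 1) with h4 | h4
  · exact h3 σ h4
  · have h5 := congrArg (coeff σ) h2
    rw [coeff_homogeneousComponent, if_pos (by omega), coeff_zero] at h5
    exact h5

end Pool.Agent.TH167.TT
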