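import Pool.Agent.TH167.TT.Bas
import Pool.Agent.TH167.SH.Final
import Pool.Agent.Chud.PBZ

set_option autoImplicit false

/-!
# Points whose multiplicities have small sum
-/

namespace Pool.Agent.TH167.TT

open MvPolynomial Pool.Agent.W609 Pool.Agent.W609.CR Pool.Agent.TH167.SH

open Pool.Agent.Chud in
/-- Fat points whose multiplicities have sum at most the degree impose independent conditions. -/
theorem sum_le_dim {K : Type} [Field K] {s : ℕ} {P : Fin s → Fin 2 → K}
    (hP : Function.Injective P) (w : Fin s → ℕ) {d : ℕ} (hw : ∑ j, w j ≤ d) :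
    Module.finrank K ↥(VS (fun j => aff (P j)) w d) + ∑ j, (w j + 1).choose 2 ≤
      (d + 2).choose 2 := by
  classical
  let p : Fin s → PP K 2 := fun j => Projectivization.mk K (aff (P j)) (aff_ne _)
  have hp : Function.Injective p := by
    intro i j hij
    have h1 := (Projectivization.mk_eq_mk_iff' K _ _ (aff_ne (P i)) (aff_ne (P j))).1 hij
    obtain ⟨c, hc⟩ := h1
    have h2 := congrFun hc 2
    have h3 : c = 1 := by simpa [aff] using h2
    rw [h3, one_smul] at hc
    refine hP (funext fun l => ?_)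
    fin_cases l
    · have := congrFun hc 0
      simpa [aff] using this.symm
    · have := congrFun hc 1
      simpa [aff] using this.symm
  let t : PP K 2 → ℕ := fun q => if h : ∃ j, p j = q then w h.choose else 0
  have ht : ∀ j, t (p j) = w j := by
    intro j
    have h : ∃ i, p i = p j := ⟨j, rfl⟩
    show (if h : ∃ i, p i = p j then w h.choose else 0) = w j
    rw [dif_pos h]
    exact congrArg w (hp h.choose_spec)
  have hvan : ∀ (f : MvPolynomial (Fin 3) K), f.IsHomogeneous d → ∀ j,
      Van (aff (P j)) (w j) f → f ∈ mI (p j).rep ^ (w j) := by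
    intro f hf j hj
    obtain ⟨c, hc⟩ := Projectivization.exists_smul_eq_mk_rep K (aff (P j)) (aff_ne _)
    have h1 := ((t_lin K).2 f d hf (c : K) c.ne_zero (aff (P j)) (w j)).2 hj
    have h2 : (c : K) • aff (P j) = (p j).rep := hc
    rw [h2] at h1
    exact h1
  let Pf : Finset (PP K 2) := Finset.univ.image p
  have hsum : ∑ q ∈ Pf, t q ≤ d := by
    rw [Finset.sum_image (fun a _ b _ h => hp h)]
    simp only [ht]
    exact hw
  let R := homogeneousSubmodule (Fin 3) K d
  let Φ : ↥R →ₗ[K] ((Σ p : Pf, De (t p)) → K) := (Phi Pf t).comp R.subtype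
  have hΦ : Function.Surjective Φ := by
    intro c
    obtain ⟨A, hA, hA'⟩ := Phi_surj Pf t hsum c
    exact ⟨⟨A, hA⟩, hA'⟩
  have h1 := LinearMap.finrank_range_add_finrank_ker Φ
  rw [LinearMap.range_eq_top.2 hΦ, finrank_top] at h1
  have h2 := finrank_target Pf t
  have h3 : Module.finrank K ↥(VS (fun j => aff (P j)) w d) ≤
      Module.finrank K ↥(LinearMap.ker Φ) := by
    have h4 : VS (fun j => aff (P j)) w d ≤ (LinearMap.ker Φ).map R.subtype := by
      intro f hf
      rw [mem_VS] at hf
      refine ⟨⟨f, hf.1⟩, ?_, rfl⟩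
      show Phi Pf t f = 0
      rw [Phi_eq_zero_iff]
      intro q hq
      obtain ⟨j, _, rfl⟩ := Finset.mem_image.1 hq
      rw [ht]
      exact (chart (p j)).mem_pow (hvan f hf.1 j (hf.2 j))
    refine (Submodule.finrank_mono h4).trans ?_
    exact Submodule.finrank_map_le _ _
  have h5 : ∑ q ∈ Pf, t q * (t q + 1) = ∑ j, w j * (w j + 1) := by
    rw [Finset.sum_image (fun a _ b _ h => hp h)]
    simp only [ht]
  have h6 : ∀ x : ℕ, 2 * (x + 1).choose 2 = x * (x + 1) := by
    intro x
    rw [Nat.choose_two_right]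
    have : 2 ∣ (x + 1) * (x + 1 - 1) := (Nat.even_mul_pred_self (x + 1)).two_dvd
    rw [Nat.mul_div_cancel' this, Nat.add_sub_cancel, mul_comm]
  have h7 : ∑ j, w j * (w j + 1) = 2 * ∑ j, (w j + 1).choose 2 := by
    rw [Finset.mul_sum]
    exact Finset.sum_congr rfl fun j _ => (h6 (w j)).symm
  have h8 : Module.finrank K ↥R = (d + 2).choose 2 := H248R6.finrank_homog d
  rw [h8] at h1
  omega

end Pool.Agent.TH167.TT
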