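import Pool.Agent.TH167.TT.Reg

set_option autoImplicit false

/-!
# Restriction to a curve
-/

namespace Pool.Agent.TH167.TT

open MvPolynomial Pool.Agent.W609 Pool.Agent.W609.CR Pool.Agent.TH167.SH

/-- Restriction to a curve. -/
theorem restrict {K : Type} [Field K] {s : ℕ} {P : Fin s → Fin 2 → K} {w u : Fin s → ℕ} {d e : ℕ}
    {G : MvPolynomial (Fin 3) K} (hG0 : G ≠ 0) (hGe : G.IsHomogeneous e)
    (hord : ∀ j, w j ≠ 0 → Ord (aff (P j)) (u j) G)
    (ρ : MvPolynomial (Fin 3) K →ₗ[K] Polynomial K) (W : Submodule K (Polynomial K))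
    [Module.Finite K ↥W] (hW : ∀ F ∈ VS (fun j => aff (P j)) w d, ρ F ∈ W)
    (hker : ∀ F ∈ VS (fun j => aff (P j)) w d, ρ F = 0 → G ∣ F) :
    Module.finrank K ↥(VS (fun j => aff (P j)) w d) ≤
      Module.finrank K ↥(VS (fun j => aff (P j)) (fun j => w j - u j) (d - e)) +
        Module.finrank K ↥W := by
  classical
  have hf := vs_fin (fun j => aff (P j)) w d
  have hf' := vs_fin (fun j => aff (P j)) (fun j => w j - u j) (d - e)
  let ψ : ↥(VS (fun j => aff (P j)) w d) →ₗ[K] Polynomial K :=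
    ρ.comp (VS (fun j => aff (P j)) w d).subtype
  have h1 := LinearMap.finrank_range_add_finrank_ker ψ
  have h2 : Module.finrank K ↥(LinearMap.range ψ) ≤ Module.finrank K ↥W := by
    apply Submodule.finrank_mono
    rintro _ ⟨F, rfl⟩
    exact hW F.1 F.2
  have h3 : (LinearMap.ker ψ).map (VS (fun j => aff (P j)) w d).subtype ≤
      (VS (fun j => aff (P j)) (fun j => w j - u j) (d - e)).map (LinearMap.mulLeft K G) := by
    rintro _ ⟨F, hF, rfl⟩
    have hFm := F.2
    have h4 : G ∣ F.1 := hker F.1 F.2 hF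
    obtain ⟨H, hH⟩ := h4
    by_cases hF0 : F.1 = 0
    · refine ⟨0, Submodule.zero_mem _, ?_⟩
      rw [map_zero]
      exact hF0.symm
    rw [mem_VS] at hFm
    have hH0 : H ≠ 0 := fun h => hF0 (by rw [hH, h, mul_zero])
    have hHd := Pool.Agent.Chud.homog_of_dvd hFm.1 hF0 (Dvd.intro_left G hH.symm)
    have h6 := hGe.mul hHd
    rw [← hH] at h6
    have h7 := h6.inj_right hFm.1 hF0
    refine ⟨H, ?_, hH.symm⟩
    rw [SetLike.mem_coe, mem_VS]
    refine ⟨?_, fun j => ?_⟩
    · have h8 : H.totalDegree = d - e := by omega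
      rwa [h8] at hHd
    · by_cases hw : w j - u j = 0
      · rw [hw]
        exact van_zero _ _
      · refine van_of_mul (hord j (by omega)) ?_
        rw [← hH]
        have h9 : u j + (w j - u j) = w j := by omega
        rw [h9]
        exact hFm.2 j
  have h4 := Submodule.finrank_mono h3
  have h5 := LinearEquiv.finrank_eq (Submodule.equivMapOfInjective
    (VS (fun j => aff (P j)) w d).subtype (Submodule.injective_subtype _) (LinearMap.ker ψ))
  have h6 := Submodule.finrank_map_le (LinearMap.mulLeft K G)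
    (VS (fun j => aff (P j)) (fun j => w j - u j) (d - e))
  omega

end Pool.Agent.TH167.TT
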