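import Pool.Agent.TH167.SH.Gen

set_option autoImplicit false

/-!
# Semicontinuity of the dimension
-/

namespace Pool.Agent.TH167.TT

open MvPolynomial Pool.Agent.W609 Pool.Agent.W609.CR Pool.Agent.TH167.SH

theorem exists_sub {m n : Type} [Fintype m] [Fintype n] {K : Type} [Field K]
    (A : Matrix m n K) {k : ℕ} (hA : A.rank = k) : ∃ (r : Fin k → m) (c : Fin k → n),
      (A.submatrix r c).det ≠ 0 := by
  classical
  have key : ∀ {m n : Type} [Fintype m] [Fintype n] (A : Matrix m n K), A.rank = k →
      ∃ r : Fin k → m, LinearIndependent K (A.submatrix r id).row := by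
    intro m n _ _ A hA
    have hk : Module.finrank K (Submodule.span K (Set.range A.row)) = k := by
      rw [← A.rank_eq_finrank_span_row, hA]
    subst hk
    obtain ⟨f, hf1, hf2, hf3⟩ := Submodule.exists_fun_fin_finrank_span_eq K (Set.range A.row)
    choose r hr using hf1
    refine ⟨r, ?_⟩
    have : (A.submatrix r id).row = f := by
      funext i
      exact hr i
    rw [this]
    exact hf3
  obtain ⟨r, hr⟩ := key A hA
  have h1 : (A.submatrix r id).transpose.rank = k := by
    rw [Matrix.rank_transpose, hr.rank_matrix, Fintype.card_fin]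
  obtain ⟨c, hc⟩ := key _ h1
  refine ⟨r, c, ?_⟩
  have h2 := Matrix.linearIndependent_rows_iff_isUnit.1 hc
  have h3 : ((A.submatrix r id).transpose.submatrix c id) = (A.submatrix r c).transpose := rfl
  rw [h3, Matrix.isUnit_transpose, Matrix.isUnit_iff_isUnit_det] at h2
  exact h2.ne_zero

theorem rank_map_le {m n : Type} [Fintype m] [Fintype n] {R : Type} [CommRing R]
    (A : Matrix m n R) {K K' : Type} [Field K] [Field K'] (φ : R →+* K)
    (hφ : Function.Injective φ) (φ' : R →+* K') : (A.map φ').rank ≤ (A.map φ).rank := by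
  classical
  obtain ⟨r, c, h⟩ := exists_sub (A.map φ') rfl
  have h1 : ((A.map φ').submatrix r c).det = φ' (A.submatrix r c).det := by
    rw [RingHom.map_det]
    rfl
  have h2 : (A.submatrix r c).det ≠ 0 := by
    intro h3
    rw [h1, h3, map_zero] at h
    exact h rfl
  have h4 : ((A.map φ).submatrix r c).det = φ (A.submatrix r c).det := by
    rw [RingHom.map_det]
    rfl
  have h5 : ((A.map φ).submatrix r c).det ≠ 0 := by
    rw [h4]
    intro h6
    exact h2 (hφ (h6.trans (map_zero φ).symm))
  have h6 := Matrix.rank_of_det_ne_zero h5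
  rw [Fintype.card_fin] at h6
  rw [← h6]
  exact Matrix.rank_submatrix_le _ _ _

/-- The dimension at generic points is the smallest one. -/
theorem semi {K K' : Type} [Field K] [CharZero K] [Field K'] [CharZero K'] {s : ℕ}
    {P : Fin s → Fin 2 → K}
    (hP : AlgebraicIndependent ℚ (fun ij : Fin s × Fin 2 => P ij.1 ij.2))
    (P' : Fin s → Fin 2 → K') (w : Fin s → ℕ) (d : ℕ) :
    Module.finrank K ↥(VS (fun j => aff (P j)) w d) ≤
      Module.finrank K' ↥(VS (fun j => aff (P' j)) w d) := by
  have h1 := vs_rank P w d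
  have h2 := vs_rank P' w d
  have h3 := rank_map_le (cmat w d)
    (MvPolynomial.aeval (fun ij : Fin s × Fin 2 => P ij.1 ij.2)).toRingHom hP
    (MvPolynomial.aeval (fun ij : Fin s × Fin 2 => P' ij.1 ij.2)).toRingHom
  omega

/-- The dimension at generic points does not depend on the points. -/
theorem gen_eq {K K' : Type} [Field K] [CharZero K] [Field K'] [CharZero K'] {s : ℕ}
    {P : Fin s → Fin 2 → K} {P' : Fin s → Fin 2 → K'}
    (hP : AlgebraicIndependent ℚ (fun ij : Fin s × Fin 2 => P ij.1 ij.2))
    (hP' : AlgebraicIndependent ℚ (fun ij : Fin s × Fin 2 => P' ij.1 ij.2))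
    (w : Fin s → ℕ) (d : ℕ) :
    Module.finrank K ↥(VS (fun j => aff (P j)) w d) =
      Module.finrank K' ↥(VS (fun j => aff (P' j)) w d) :=
  le_antisymm (semi hP P' w d) (semi hP' P w d)

end Pool.Agent.TH167.TT
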