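import Pool.Agent.TH167.TT.Elim
import Pool.Agent.H248R6.Coef

set_option autoImplicit false

/-!
# Singular points of a squarefree form do not move
-/

namespace Pool.Agent.TH167.TT

open MvPolynomial Pool.Agent.W609 Pool.Agent.W609.CR Pool.Agent.TH167.SH Pool.Agent.H248R5
  Pool.Agent.H248R6

theorem pd_dvd {F : Type} [Field F] [CharZero F] {q : MvPolynomial (Fin 3) F} {e : ℕ}
    (hq : Irreducible q) (hqe : q.IsHomogeneous e) (h : ∀ l, q ∣ pderiv l q) : False := by
  have he := deg_pos hq hqe
  have h1 : ∀ l, pderiv l q = 0 := by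
    intro l
    by_contra hne
    have h2 := hqe.pderiv (i := l)
    have h3 := h2.totalDegree hne
    obtain ⟨g, hg⟩ := h l
    have hg0 : g ≠ 0 := fun h0 => hne (by rw [hg, h0, mul_zero])
    have h4 := MvPolynomial.totalDegree_mul_of_isDomain hq.ne_zero hg0
    rw [← hg, h3, hqe.totalDegree hq.ne_zero] at h4
    omega
  have h2 := hqe.sum_X_mul_pderiv
  rw [Finset.sum_eq_zero (fun l _ => by rw [h1, mul_zero]), nsmul_eq_mul] at h2
  rcases mul_eq_zero.1 h2.symm with h3 | h3
  · have : ((e : ℕ) : MvPolynomial (Fin 3) F) ≠ 0 := by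
      exact_mod_cast (by omega : e ≠ 0)
    exact this h3
  · exact hq.ne_zero h3

/-- A squarefree form is coprime to one of its derivatives. -/
theorem exists_rel {F : Type} [Field F] [CharZero F] {f : MvPolynomial (Fin 3) F} {d : ℕ}
    (hf : f.IsHomogeneous d) (hf0 : f ≠ 0) (hsq : Squarefree f) :
    ∃ v : Fin 3 → F, IsRelPrime f (∑ l, C (v l) * pderiv l f) := by
  classical
  by_contra hcon
  push Not at hcon
  let W : {q // q ∈ (UniqueFactorizationMonoid.factors f).toFinset} → Subspace F (Fin 3 → F) :=
    fun q =>
      { carrier := {v | q.1 ∣ ∑ l, C (v l) * pderiv l f}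
        zero_mem' := by simp
        add_mem' := by
          intro a b ha hb
          show q.1 ∣ ∑ l, C ((a + b) l) * pderiv l f
          have : ∑ l, C ((a + b) l) * pderiv l f =
              ∑ l, C (a l) * pderiv l f + ∑ l, C (b l) * pderiv l f := by
            rw [← Finset.sum_add_distrib]
            exact Finset.sum_congr rfl fun l _ => by rw [Pi.add_apply, C_add, add_mul]
          rw [this]
          exact dvd_add ha hb
        smul_mem' := by
          intro c a ha
          show q.1 ∣ ∑ l, C ((c • a) l) * pderiv l f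
          have : ∑ l, C ((c • a) l) * pderiv l f = C c * ∑ l, C (a l) * pderiv l f := by
            rw [Finset.mul_sum]
            exact Finset.sum_congr rfl fun l _ => by
              rw [Pi.smul_apply, smul_eq_mul, C_mul, mul_assoc]
          rw [this]
          exact dvd_mul_of_dvd_right ha _ }
  have hcov : ⋃ q, (W q : Set (Fin 3 → F)) = Set.univ := by
    rw [Set.eq_univ_iff_forall]
    intro v
    have h1 := hcon v
    unfold IsRelPrime at h1
    push Not at h1
    obtain ⟨c, hc1, hc2, hc3⟩ := h1
    have hc0 : c ≠ 0 := fun h => hf0 (by rw [h, zero_dvd_iff] at hc1; exact hc1)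
    obtain ⟨g, hg, hgc⟩ := WfDvdMonoid.exists_irreducible_factor hc3 hc0
    obtain ⟨q, hq, hgq⟩ := UniqueFactorizationMonoid.exists_mem_factors_of_dvd hf0 hg
      (hgc.trans hc1)
    rw [Set.mem_iUnion]
    refine ⟨⟨q, Multiset.mem_toFinset.2 hq⟩, ?_⟩
    show q ∣ ∑ l, C (v l) * pderiv l f
    exact hgq.symm.dvd.trans (hgc.trans hc2)
  obtain ⟨⟨q, hq⟩, hqW⟩ := Subspace.exists_eq_top_of_iUnion_eq_univ hcov
  rw [Multiset.mem_toFinset] at hq
  have hqi := UniqueFactorizationMonoid.irreducible_of_factor q hq
  have hqf := UniqueFactorizationMonoid.dvd_of_mem_factors hq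
  have hqh := Pool.Agent.Chud.homog_of_dvd hf hf0 hqf
  obtain ⟨g, hg⟩ := hqf
  have hqg : ¬ q ∣ g := by
    rintro ⟨g', hg'⟩
    refine hqi.not_isUnit (hsq q ⟨g', ?_⟩)
    rw [hg, hg']
    ring
  refine pd_dvd hqi hqh fun l => ?_
  have h1 : q ∣ pderiv l f := by
    have h2 : (Pi.single l 1 : Fin 3 → F) ∈ W ⟨q, Multiset.mem_toFinset.2 hq⟩ := by
      rw [hqW]
      exact Submodule.mem_top
    have h3 : q ∣ ∑ i, C ((Pi.single l 1 : Fin 3 → F) i) * pderiv i f := h2
    rw [Finset.sum_eq_single l] at h3
    · rwa [Pi.single_eq_same, C_1, one_mul] at h3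
    · intro b _ hb
      rw [Pi.single_eq_of_ne hb, C_0, zero_mul]
    · intro h
      exact absurd (Finset.mem_univ _) h
  rw [hg, Derivation.leibniz, smul_eq_mul, smul_eq_mul] at h1
  have h2 : q ∣ g * pderiv l q := (dvd_add_right (dvd_mul_right q _)).1 h1
  exact (hqi.prime.dvd_or_dvd h2).resolve_left hqg

/-- Roots of polynomials with constant coefficients are constant. -/
theorem const_root {K : Type} [Field K] [CharZero K] (D : Derivation ℚ K K) {x : K} :
    ∀ (n : ℕ) (p : Polynomial K), p.natDegree ≤ n → p ≠ 0 → (∀ i, D (p.coeff i) = 0) →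
      p.eval x = 0 → D x = 0 := by
  intro n
  induction n with
  | zero =>
    intro p hp hp0 _ hx
    exfalso
    rw [Polynomial.eq_C_of_natDegree_le_zero hp, Polynomial.eval_C] at hx
    apply hp0
    rw [Polynomial.eq_C_of_natDegree_le_zero hp, hx, map_zero]
  | succ n ih =>
    intro p hp hp0 hD hx
    have h1 : D (p.eval x) = (Polynomial.derivative p).eval x * D x := by
      have key : ∀ q : Polynomial K, D (q.eval x) =
          (Polynomial.derivative q).eval x * D x + ∑ i ∈ q.support, D (q.coeff i) * x ^ i := by
        intro q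
        have e1 : ∀ q : Polynomial K, ∑ i ∈ q.support, D (q.coeff i) * x ^ i =
            q.sum fun i a => D a * x ^ i := fun q => rfl
        rw [e1]
        induction q using Polynomial.induction_on' with
        | add a b ha hb =>
          rw [Polynomial.eval_add, map_add, ha, hb, Polynomial.derivative_add,
            Polynomial.eval_add, Polynomial.sum_add_index]
          · ring
          · intro i
            rw [map_zero, zero_mul]
          · intro i a b
            rw [map_add, add_mul]
        | monomial i a =>
          rw [Polynomial.eval_monomial, Polynomial.derivative_monomial, Polynomial.eval_monomial,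
            Polynomial.sum_monomial_index _ _ (by rw [map_zero, zero_mul]), D.leibniz,
            D.leibniz_pow, smul_eq_mul, smul_eq_mul, smul_eq_mul, nsmul_eq_mul]
          ring
      rw [key p, Finset.sum_eq_zero (fun i _ => by rw [hD, zero_mul]), add_zero]
    rw [hx, map_zero] at h1
    rcases mul_eq_zero.1 h1.symm with h2 | h2
    · by_cases h3 : Polynomial.derivative p = 0
      · exfalso
        have h4 := Polynomial.derivative_eq_zero.1 h3
        rw [Polynomial.eq_C_of_natDegree_eq_zero h4, Polynomial.eval_C] at hx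
        apply hp0
        rw [Polynomial.eq_C_of_natDegree_eq_zero h4, hx, map_zero]
      · refine ih _ ?_ h3 (fun i => ?_) h2
        · have := Polynomial.natDegree_derivative_le p
          omega
        · rw [Polynomial.coeff_derivative, D.leibniz, hD, smul_zero, add_zero]
          have : D ((i : K) + 1) = 0 := by
            have h5 : (i : K) + 1 = algebraMap ℚ K ((i : ℚ) + 1) := by simp
            rw [h5, D.map_algebraMap]
          rw [this, smul_zero]
    · exact h2

/-- The field of constants. -/
def cst {K : Type} [Field K] [CharZero K] (D : Derivation ℚ K K) : Subfield K where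
  carrier := {x | D x = 0}
  mul_mem' := by
    intro a b ha hb
    show D (a * b) = 0
    rw [D.leibniz, show D a = 0 from ha, show D b = 0 from hb, smul_zero, smul_zero, add_zero]
  one_mem' := D.map_one_eq_zero
  add_mem' := by
    intro a b ha hb
    show D (a + b) = 0
    rw [map_add, show D a = 0 from ha, show D b = 0 from hb, add_zero]
  zero_mem' := map_zero D
  neg_mem' := by
    intro a ha
    show D (-a) = 0
    rw [map_neg, show D a = 0 from ha, neg_zero]
  inv_mem' := by
    intro a ha
    show D a⁻¹ = 0
    rw [D.leibniz_inv, show D a = 0 from ha, smul_zero]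

theorem isUnit_of_map {F K : Type} [Field F] [Field K] (φ : F →+* K)
    {g : MvPolynomial (Fin 3) F} (h : IsUnit (MvPolynomial.map φ g)) : IsUnit g := by
  rw [MvPolynomial.isUnit_iff_totalDegree_of_isReduced] at h ⊢
  refine ⟨?_, ?_⟩
  · rw [isUnit_iff_ne_zero]
    intro h0
    have h1 := h.1
    rw [coeff_map, h0, map_zero, isUnit_iff_ne_zero] at h1
    exact h1 rfl
  · have h1 := MvPolynomial.totalDegree_eq_zero_iff_eq_C.1 h.2
    rw [coeff_map] at h1
    have h2 : g = C (coeff 0 g) := by
      apply MvPolynomial.map_injective φ φ.injective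
      rw [map_C]
      exact h1
    rw [h2, totalDegree_C]

/-- The singular points of a squarefree form with constant coefficients are constant. -/
theorem sing_const {K : Type} [Field K] [CharZero K] (D : Derivation ℚ K K)
    {f : MvPolynomial (Fin 3) K} {d : ℕ} (hf : f.IsHomogeneous d) (hf0 : f ≠ 0)
    (hsq : Squarefree f) (hD : dG D f = 0) {p : Fin 2 → K} (h0 : eval (aff p) f = 0)
    (h1 : ∀ l, eval (aff p) (pderiv l f) = 0) (a : Fin 2) : D (p a) = 0 := by
  classical
  obtain ⟨F, hF⟩ : ∃ F : Subfield K, F = cst D := ⟨_, rfl⟩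
  have hmemF : ∀ x : K, x ∈ F ↔ D x = 0 := by
    intro x
    rw [hF]
    exact Iff.rfl
  have hrange : f ∈ Set.range (MvPolynomial.map (σ := Fin 3) F.subtype) := by
    rw [MvPolynomial.mem_range_map_iff_coeffs_subset]
    intro c hc
    obtain ⟨α, -, rfl⟩ := MvPolynomial.mem_coeffs_iff.1 hc
    refine ⟨⟨coeff α f, ?_⟩, rfl⟩
    rw [hmemF, ← coeff_dG, hD, coeff_zero]
  obtain ⟨f0, hf0'⟩ := hrange
  have hf0' : MvPolynomial.map F.subtype f0 = f := hf0'
  have hinj : Function.Injective (MvPolynomial.map (σ := Fin 3) F.subtype) :=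
    MvPolynomial.map_injective _ F.subtype.injective
  have hne : f0 ≠ 0 := by
    rintro rfl
    rw [map_zero] at hf0'
    exact hf0 hf0'.symm
  have hhom : f0.IsHomogeneous d := by
    intro α hα
    refine hf ?_
    rw [← hf0', coeff_map]
    exact fun h => hα (F.subtype.injective (h.trans (map_zero _).symm))
  have hsq0 : Squarefree f0 := by
    intro x hx
    refine isUnit_of_map F.subtype (hsq _ ?_)
    obtain ⟨y, hy⟩ := hx
    refine ⟨MvPolynomial.map F.subtype y, ?_⟩
    rw [← hf0', hy, map_mul, map_mul]
  obtain ⟨v, hv⟩ := exists_rel hhom hne hsq0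
  obtain ⟨h, hh⟩ : ∃ h, h = ∑ l, C (v l) * pderiv l f0 := ⟨_, rfl⟩
  rw [← hh] at hv
  have hhe : eval (aff p) (MvPolynomial.map F.subtype h) = 0 := by
    rw [hh, map_sum, map_sum]
    refine Finset.sum_eq_zero fun l _ => ?_
    rw [map_mul, map_mul, ← pderiv_map, hf0', h1, mul_zero]
  have hfe : eval (aff p) (MvPolynomial.map F.subtype f0) = 0 := by rw [hf0', h0]
  by_cases hh0 : h = 0
  · exfalso
    rw [hh0, isRelPrime_zero_right] at hv
    have h2 := (MvPolynomial.isUnit_iff_totalDegree_of_isReduced.1 hv)
    rw [MvPolynomial.totalDegree_eq_zero_iff_eq_C.1 h2.2, map_C, eval_C] at hfe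
    exact h2.1.ne_zero (F.subtype.injective (hfe.trans (map_zero _).symm))
  · have hhh : h.IsHomogeneous (d - 1) := by
      rw [hh]
      refine IsHomogeneous.sum _ _ _ fun l _ => ?_
      exact IsHomogeneous.C_mul hhom.pderiv _
    obtain ⟨n, c, hc, A, B, hAB⟩ := exists_elim hhom hhh hne hh0 hv
      (l := Fin.castSucc a) (by
        intro h2
        have := congrArg Fin.val h2
        simp at this
        omega)
    have h2 := congrArg (fun q => eval (aff p) (MvPolynomial.map F.subtype q)) hAB
    simp only [map_add, map_mul, hfe, hhe, mul_zero, add_zero, map_sum, map_pow, map_X, map_C,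
      eval_X, eval_C] at h2
    have haff : aff p (Fin.castSucc a) = p a := by
      fin_cases a
      · rfl
      · rfl
    have haff2 : aff p 2 = 1 := rfl
    simp only [haff, haff2, one_pow, mul_one] at h2
    refine const_root D n (∑ i : Fin (n + 1), Polynomial.monomial (i : ℕ) ((c i : F) : K)) ?_ ?_ ?_ ?_
    · refine Polynomial.natDegree_sum_le_of_forall_le _ _ fun i _ => ?_
      refine (Polynomial.natDegree_monomial_le _).trans ?_
      have := i.2
      omega
    · intro h3
      apply hc
      funext i
      have h4 := congrArg (fun q => Polynomial.coeff q (i : ℕ)) h3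
      simp only [Polynomial.finsetSum_coeff, Polynomial.coeff_monomial, Polynomial.coeff_zero] at h4
      rw [Finset.sum_eq_single i] at h4
      · rw [if_pos rfl] at h4
        exact Subtype.ext h4
      · intro j _ hj
        rw [if_neg]
        intro h5
        exact hj (Fin.ext h5)
      · intro h
        exact absurd (Finset.mem_univ _) h
    · intro j
      rw [Polynomial.finsetSum_coeff, map_sum]
      refine Finset.sum_eq_zero fun i _ => ?_
      rw [Polynomial.coeff_monomial]
      split_ifs
      · exact (hmemF _).1 (c i).2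
      · exact map_zero D
    · rw [Polynomial.eval_finsetSum]
      rw [h2]
      refine Finset.sum_congr rfl fun i _ => ?_
      rw [Polynomial.eval_monomial]
      rfl

end Pool.Agent.TH167.TT
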