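import Pool.Agent.TH167.TT.Conv9

set_option autoImplicit false

/-!
# Exact multiplicities of the general member, nef classes
-/

namespace Pool.Agent.TH167.TT

open MvPolynomial Pool.Agent.W609 Pool.Agent.W609.CR Pool.Agent.TH167.SH

theorem ext1_cast {r : ℕ} (w : Fin (r + 4) → ℕ) (x : ℕ) (j : Fin (r + 4)) :
    ext1 w x ⟨j.1, by omega⟩ = w j := by
  unfold ext1
  rw [dif_pos j.2]

theorem ext1_last {r : ℕ} (w : Fin (r + 4) → ℕ) (x : ℕ) :
    ext1 w x ⟨r + 4, by omega⟩ = x := by
  unfold ext1
  rw [dif_neg]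
  exact Nat.lt_irrefl (r + 4)

/-- All points but the last one. -/
def res1 {K0 : Type} {r : ℕ} (P0 : Fin (r + 1 + 4) → Fin 2 → K0) : Fin (r + 4) → Fin 2 → K0 :=
  fun j => P0 ⟨j.1, by omega⟩

theorem ext1_zero {K0 : Type} [Field K0] {r : ℕ} (P0 : Fin (r + 1 + 4) → Fin 2 → K0)
    (w : Fin (r + 4) → ℕ) (d : ℕ) :
    VS (fun j => aff (P0 j)) (ext1 w 0) d = VS (fun j => aff (res1 P0 j)) w d := by
  ext f
  rw [mem_VS, mem_VS]
  constructor
  · rintro ⟨a1, a2⟩
    refine ⟨a1, fun j => ?_⟩
    have a3 := a2 ⟨j.1, by omega⟩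
    rw [ext1_cast] at a3
    exact a3
  · rintro ⟨a1, a2⟩
    refine ⟨a1, fun j => ?_⟩
    unfold ext1
    split_ifs with hj
    · exact a2 ⟨j.1, hj⟩
    · exact van_zero _ _

theorem ext1_generic {K0 : Type} [Field K0] [CharZero K0] {r : ℕ}
    {P0 : Fin (r + 1 + 4) → Fin 2 → K0}
    (hP0 : AlgebraicIndependent ℚ (fun ij : Fin (r + 1 + 4) × Fin 2 => P0 ij.1 ij.2)) :
    AlgebraicIndependent ℚ (fun ij : Fin (r + 4) × Fin 2 => res1 P0 ij.1 ij.2) := by
  have h4 := hP0.comp (fun ij : Fin (r + 4) × Fin 2 =>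
    ((⟨ij.1.1, by omega⟩ : Fin (r + 1 + 4)), ij.2)) (by
      rintro ⟨a, b⟩ ⟨a', b'⟩ h
      have e1 := congrArg (fun x : Fin (r + 1 + 4) × Fin 2 => x.1.1) h
      have e2 := congrArg Prod.snd h
      exact Prod.ext (Fin.ext e1) e2)
  exact h4

theorem ext1_update {r : ℕ} (w : Fin (r + 4) → ℕ) (x y : ℕ) :
    Function.update (ext1 w x) ⟨r + 4, by omega⟩ y = ext1 w y := by
  funext j
  by_cases hj : j = ⟨r + 4, by omega⟩
  · subst hj
    rw [Function.update_self, ext1_last]
  · rw [Function.update_of_ne hj]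
    unfold ext1
    have : j.1 < r + 4 := by
      have h7 := j.2
      have h8 : j.1 ≠ r + 4 := fun h => hj (Fin.ext h)
      omega
    rw [dif_pos this, dif_pos this]

/-- At generic points a nonempty system gets smaller if a multiplicity is raised. -/
theorem strict : ∀ (n r d : ℕ) (w : Fin (r + 4) → ℕ) (K : Type) [Field K] [CharZero K]
    (P : Fin (r + 4) → Fin 2 → K)
    (_ : AlgebraicIndependent ℚ (fun ij : Fin (r + 4) × Fin 2 => P ij.1 ij.2))
    (_ : Module.finrank K ↥(VS (fun j => aff (P j)) w d) = n + 1) (j : Fin (r + 4)),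
    Module.finrank K ↥(VS (fun j => aff (P j)) (Function.update w j (w j + 1)) d) < n + 1 := by
  classical
  intro n
  induction n with
  | zero =>
    intro r d w K _ _ P hP h1 j
    by_contra hcon
    obtain ⟨f, hf, hf0⟩ := exists_mem (show 0 < Module.finrank K
      ↥(VS (fun j => aff (P j)) (Function.update w j (w j + 1)) d) by omega)
    have hle : ∀ i, w i ≤ Function.update w j (w j + 1) i := by
      intro i
      by_cases hij : i = j
      · subst hij
        rw [Function.update_self]
        omega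
      · rw [Function.update_of_ne hij]
    have hfw := vs_le (P := P) (d := d) hle hf
    have h2 := exact_ord hP h1 hfw hf0 j
    apply h2.2
    have h3 := ((mem_VS _ _ _ _).1 hf).2 j
    rw [Function.update_self] at h3
    exact h3
  | succ n ih =>
    intro r d w K _ _ P hP h1 j
    obtain ⟨K0, i1, i2, P0, hP0⟩ := exists_generic (r + 1 + 4)
    have hP0' := ext1_generic hP0
    have h5 := gen_eq hP0' hP w d
    rw [h1] at h5
    have h6 := ext1_zero P0 w d
    have hj : Function.update w j (w j + 1) = Function.update w j (w j + 1) := rfl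
    have h7 := simple_drop hP0 (ext1_last w 0) (d := d) (by rw [h6, h5]; omega)
    have h8 := simple_le P0 (ext1_last w 0) d
    rw [ext1_update, h6, h5] at h7 h8
    have h9 := ih (r + 1) d (ext1 w 1) K0 P0 hP0 (by omega) ⟨j.1, by omega⟩
    have e1 : Function.update (ext1 w 1) ⟨j.1, by omega⟩ (ext1 w 1 ⟨j.1, by omega⟩ + 1) =
        ext1 (Function.update w j (w j + 1)) 1 := by
      funext i
      rw [ext1_cast]
      by_cases hij : i = ⟨j.1, by omega⟩
      · subst hij
        rw [Function.update_self, ext1_cast, Function.update_self]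
      · rw [Function.update_of_ne hij]
        unfold ext1
        split_ifs with hi
        · rw [Function.update_of_ne]
          intro h
          have h2 : i.1 = j.1 := congrArg Fin.val h
          exact hij (Fin.ext h2)
        · rfl
    rw [e1] at h9
    have h10 := simple_le P0 (ext1_last (Function.update w j (w j + 1)) 0) d
    rw [ext1_update, ext1_zero] at h10
    have h11 := gen_eq hP0' hP (Function.update w j (w j + 1)) d
    rw [h11] at h10
    omega

/-- At generic points a nonempty system has a member with the assigned multiplicities. -/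
theorem exists_exact {K : Type} [Field K] [CharZero K] {r d : ℕ} {w : Fin (r + 4) → ℕ}
    {P : Fin (r + 4) → Fin 2 → K}
    (hP : AlgebraicIndependent ℚ (fun ij : Fin (r + 4) × Fin 2 => P ij.1 ij.2))
    (hpos : 0 < Module.finrank K ↥(VS (fun j => aff (P j)) w d)) :
    ∃ f ∈ VS (fun j => aff (P j)) w d, f ≠ 0 ∧ ∀ j, Ord (aff (P j)) (w j) f := by
  classical
  have hf := vs_fin (fun j => aff (P j)) w d
  let V := VS (fun j => aff (P j)) w d
  let W : Fin (r + 4) → Submodule K ↥V := fun j =>
    (VS (fun j => aff (P j)) (Function.update w j (w j + 1)) d).comap V.subtype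
  have hle : ∀ j, VS (fun j => aff (P j)) (Function.update w j (w j + 1)) d ≤ V := by
    intro j
    refine vs_le fun i => ?_
    by_cases hij : i = j
    · subst hij
      rw [Function.update_self]
      omega
    · rw [Function.update_of_ne hij]
  have hW : ∀ j, W j ≠ ⊤ := by
    intro j h
    have h1 := strict (Module.finrank K ↥V - 1) r d w K P hP
      (by show Module.finrank K ↥V = _; have : 0 < Module.finrank K ↥V := hpos; omega) j
    have h2 : V ≤ VS (fun j => aff (P j)) (Function.update w j (w j + 1)) d := by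
      intro f hfm
      have h3 : (⟨f, hfm⟩ : ↥V) ∈ W j := by rw [h]; exact Submodule.mem_top
      exact h3
    have h3 : VS (fun j => aff (P j)) (Function.update w j (w j + 1)) d = V :=
      le_antisymm (hle j) h2
    rw [h3] at h1
    have : 0 < Module.finrank K ↥V := hpos
    omega
  have hne : (⋃ p ∈ Finset.univ.image W, ((p : Submodule K ↥V) : Set ↥V)) ≠ Set.univ := by
    intro h
    have h1 := Subspace.top_mem_of_biUnion_eq_univ h
    rw [Finset.mem_image] at h1
    obtain ⟨j, -, hj⟩ := h1
    exact hW j hj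
  rw [Set.ne_univ_iff_exists_notMem] at hne
  obtain ⟨⟨f, hfm⟩, hf1⟩ := hne
  simp only [Set.mem_iUnion, not_exists] at hf1
  have hord : ∀ j, ¬ Van (aff (P j)) (w j + 1) f := by
    intro j hv
    refine hf1 (W j) (Finset.mem_image_of_mem W (Finset.mem_univ j)) ?_
    show f ∈ VS (fun j => aff (P j)) (Function.update w j (w j + 1)) d
    rw [mem_VS]
    refine ⟨((mem_VS _ _ _ _).1 hfm).1, fun i => ?_⟩
    by_cases hij : i = j
    · subst hij
      rw [Function.update_self]
      exact hv
    · rw [Function.update_of_ne hij]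
      exact ((mem_VS _ _ _ _).1 hfm).2 i
  refine ⟨f, hfm, ?_, fun j => ⟨((mem_VS _ _ _ _).1 hfm).2 j, hord j⟩⟩
  rintro rfl
  refine hord ⟨0, by omega⟩ ?_
  unfold Van
  exact Submodule.zero_mem _

/-- A class which is nonnegative on the `(-1)`-curves is nonnegative on all curves. -/
theorem nef9 {K : Type} [Field K] [CharZero K] {r d : ℕ} {w : Fin (r + 4) → ℕ}
    {P : Fin (r + 4) → Fin 2 → K}
    (hP : AlgebraicIndependent ℚ (fun ij : Fin (r + 4) × Fin 2 => P ij.1 ij.2))
    {S : Finset (Fin (r + 4))} (hSc : S.card ≤ 9) (hS : ∀ j, j ∉ S → w j ≤ 2)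
    {f : MvPolynomial (Fin 3) K} (hf0 : f ≠ 0) (hfd : f.IsHomogeneous d)
    (hford : ∀ j, Ord (aff (P j)) (w j) f)
    (hnef : ∀ (C : MvPolynomial (Fin 3) K) (e : ℕ) (u : Fin (r + 4) → ℕ), Exc P C e u →
      0 ≤ ip d w e u)
    {G : MvPolynomial (Fin 3) K} {e : ℕ} {u : Fin (r + 4) → ℕ} (hG : Irreducible G)
    (hGe : G.IsHomogeneous e) (hu : ∀ j, Ord (aff (P j)) (u j) G) : 0 ≤ ip d w e u := by
  classical
  have hinj := inj_of_alg hP
  have hG0 := hG.ne_zero
  have he0 := deg_pos hG hGe
  -- `f = G ^ k * g`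
  obtain ⟨k, g, hgnd, hfg⟩ := WfDvdMonoid.max_power_factor hf0 hG
  have hg0 : g ≠ 0 := fun h => hf0 (by rw [hfg, h, mul_zero])
  have hgh := Pool.Agent.Chud.homog_of_dvd hfd hf0 (Dvd.intro_left _ hfg.symm)
  obtain ⟨b, hb⟩ : ∃ b, b = g.totalDegree := ⟨_, rfl⟩
  rw [← hb] at hgh
  choose v hv using fun j => exists_ord (p := P j) hg0 hgh
  have hdeg : d = k * e + b := by
    have h1 := (hGe.pow k).mul hgh
    rw [← hfg] at h1
    have h2 := h1.inj_right hfd hf0
    rw [← h2]
    ring
  have hord : ∀ j, w j = k * u j + v j := by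
    intro j
    have h1 : ∀ n : ℕ, Ord (aff (P j)) (n * u j) (G ^ n) := by
      intro n
      induction n with
      | zero =>
        rw [Nat.zero_mul, pow_zero]
        refine ⟨van_zero _ _, fun h => ?_⟩
        have := van_le (one_ne_zero) (isHomogeneous_one (Fin 3) K) h
        omega
      | succ n ih =>
        rw [pow_succ, Nat.succ_mul]
        exact ord_mul ih (hu j)
    have h2 := ord_mul (h1 k) (hv j)
    rw [← hfg] at h2
    exact ord_unique (hford j) h2
  have hbez := bez hinj hG hGe (fun j => (hu j).1) hg0 hgh (fun j => (hv j).1) hgnd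
  have hgG : 0 ≤ ip b v e u := by
    unfold ip
    have h3 : (∑ j, (v j : ℤ) * u j) = ((∑ j, u j * v j : ℕ) : ℤ) := by
      push_cast
      exact Finset.sum_congr rfl fun j _ => mul_comm _ _
    rw [h3, mul_comm (b : ℤ)]
    have : ((∑ j, u j * v j : ℕ) : ℤ) ≤ ((e * b : ℕ) : ℤ) := by exact_mod_cast hbez
    push_cast at this ⊢
    linarith
  have hkG : ip d w e u = k * ip e u e u + ip b v e u := by
    unfold ip
    rw [hdeg]
    have h1 : ∀ j, (w j : ℤ) * u j = k * ((u j : ℤ) * u j) + (v j : ℤ) * u j := by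
      intro j
      rw [hord j]
      push_cast
      ring
    rw [Finset.sum_congr rfl fun j _ => h1 j, Finset.sum_add_distrib, ← Finset.mul_sum]
    push_cast
    ring
  rcases le_or_gt 0 (ip e u e u) with h | h
  · rw [hkG]
    positivity
  · rcases Nat.eq_zero_or_pos k with hk | hk
    · rw [hkG, hk]
      simpa using hgG
    · have hS' : ∀ j, j ∉ S → u j ≤ 2 := by
        intro j hj
        have h1 := hS j hj
        have h2 := hord j
        have h3 : u j ≤ k * u j := Nat.le_mul_of_pos_left _ hk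
        omega
      obtain ⟨c1, c2⟩ := (prime9 hSc hS' hP hG hGe hu).2 h
      exact hnef G e u ⟨hG, hGe, hu, self_iff.2 c1, can_iff.2 c2⟩

/-- A nef class has nonnegative self-intersection. -/
theorem nef_self {K : Type} [Field K] [CharZero K] {r d : ℕ} {w : Fin (r + 4) → ℕ}
    {P : Fin (r + 4) → Fin 2 → K}
    (hnef : ∀ (G : MvPolynomial (Fin 3) K) (e : ℕ) (u : Fin (r + 4) → ℕ), Irreducible G →
      G.IsHomogeneous e → (∀ j, Ord (aff (P j)) (u j) G) → 0 ≤ ip d w e u)
    {f : MvPolynomial (Fin 3) K} (hf0 : f ≠ 0) :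
    ∀ (e : ℕ) (u : Fin (r + 4) → ℕ), f.IsHomogeneous e → (∀ j, Ord (aff (P j)) (u j) f) →
      0 ≤ ip d w e u := by
  classical
  induction f using WfDvdMonoid.induction_on_irreducible with
  | zero => exact absurd rfl hf0
  | unit x hx =>
    intro e u he hu
    have h1 : e = 0 := by
      rw [MvPolynomial.isUnit_iff_eq_C_of_isReduced] at hx
      obtain ⟨c, -, hc⟩ := hx
      have h2 : (C c : MvPolynomial (Fin 3) K).IsHomogeneous 0 := isHomogeneous_C _ _
      rw [← hc] at h2
      exact he.inj_right h2 hf0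
    subst h1
    have h2 : ∀ j, u j = 0 := fun j => Nat.le_zero.1 (van_le hf0 he (hu j).1)
    unfold ip
    simp [h2]
  | mul a i ha0 hi ih =>
    intro e u he hu
    have hai : i * a ≠ 0 := hf0
    have hie := Pool.Agent.Chud.homog_of_dvd he hai (Dvd.intro _ rfl)
    have hae := Pool.Agent.Chud.homog_of_dvd he hai (Dvd.intro_left _ rfl)
    choose v hv using fun j => exists_ord (p := P j) hi.ne_zero hie
    choose v' hv' using fun j => exists_ord (p := P j) ha0 hae
    have h1 := ih ha0 _ v' hae hv'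
    have h2 := hnef i _ v hi hie hv
    have h3 : e = i.totalDegree + a.totalDegree := by
      have := (hie.mul hae).inj_right he hai
      omega
    have h4 : u = fun j => v j + v' j := by
      funext j
      exact ord_unique (hu j) (ord_mul (hv j) (hv' j))
    rw [h3, h4, ip_comm, ip_add, ip_comm _ d, ip_comm _ d]
    omega

end Pool.Agent.TH167.TT
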