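import Pool.Agent.TH167.TT.Strict

set_option autoImplicit false

/-!
# The Zariski decomposition
-/

namespace Pool.Agent.TH167.TT

open MvPolynomial Pool.Agent.W609 Pool.Agent.W609.CR Pool.Agent.TH167.SH

/-- The decomposition into disjoint `(-1)`-curves and a nef class. -/
theorem zar9 {K : Type} [Field K] [CharZero K] {r : ℕ} {P : Fin (r + 4) → Fin 2 → K}
    (hP : AlgebraicIndependent ℚ (fun ij : Fin (r + 4) × Fin 2 => P ij.1 ij.2)) {d : ℕ}
    {w : Fin (r + 4) → ℕ} {S : Finset (Fin (r + 4))} (hSc : S.card ≤ 9)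
    (hS : ∀ j, j ∉ S → w j ≤ 2) (hpos : 0 < Module.finrank K ↥(VS (fun j => aff (P j)) w d)) :
    ∃ (d' : ℕ) (w' : Fin (r + 4) → ℕ) (k : ℕ) (C : Fin k → MvPolynomial (Fin 3) K)
      (e : Fin k → ℕ) (u : Fin k → Fin (r + 4) → ℕ) (N : Fin k → ℕ),
      Dcp P d w d' w' C e u N ∧
      (∀ (G : MvPolynomial (Fin 3) K) (e : ℕ) (u : Fin (r + 4) → ℕ), Irreducible G →
        G.IsHomogeneous e → (∀ j, Ord (aff (P j)) (u j) G) → 0 ≤ ip d' w' e u) ∧
      0 ≤ ip d' w' d' w' ∧
      (Module.finrank K ↥(VS (fun j => aff (P j)) w' d') : ℤ) =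
        Module.finrank K ↥(VS (fun j => aff (P j)) w d) ∧
      (Module.finrank K ↥(VS (fun j => aff (P j)) w d) : ℤ) = chi d' w' := by
  obtain ⟨d', w', k, C, e, u, N, hD, hdim, P1, d1, w1, hP1, hchain, hle, hdle, hred, hdim1⟩ :=
    main2 d P hP w hpos
  have hns := red9 hred hSc (fun j hj => (hle j).trans (hS j hj)) hP1
    (by rw [hdim1, hdim]; exact hpos)
  obtain ⟨c1, c2, c3⟩ := quad_inv hchain
  simp only at c1 c2 c3
  have hw' : ∀ j, w' j ≤ w j := by
    intro j
    rw [hD.mul j]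
    omega
  obtain ⟨f, hf, hf0, hford⟩ := exists_exact hP (by rw [hdim]; exact hpos)
  have hfd := ((mem_VS _ _ _ _).1 hf).1
  have hnef : ∀ (G : MvPolynomial (Fin 3) K) (e : ℕ) (u : Fin (r + 4) → ℕ), Irreducible G →
      G.IsHomogeneous e → (∀ j, Ord (aff (P j)) (u j) G) → 0 ≤ ip d' w' e u :=
    fun G e u hG hGe hu => nef9 hP hSc (fun j hj => (hw' j).trans (hS j hj)) hf0 hfd hford hD.nef
      hG hGe hu
  refine ⟨d', w', k, C, e, u, N, ⟨hD.exc, hD.pos, hD.orth, hD.deg, hD.mul, hD.zero⟩, hnef,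
    nef_self hnef hf0 d' w' hfd hford, by rw [hdim], ?_⟩
  rw [← hdim, ← hdim1, hns, c1]

/-- A nonempty system which meets a `(-1)`-curve at most `-2` times is special. -/
theorem special_of_neg {K : Type} [Field K] {s : ℕ} {P : Fin s → Fin 2 → K}
    (hP : Function.Injective P) {C : MvPolynomial (Fin 3) K} {e : ℕ} {u : Fin s → ℕ}
    (hC : Exc P C e u) {d : ℕ} {w : Fin s → ℕ}
    (hpos : 0 < Module.finrank K ↥(VS (fun j => aff (P j)) w d)) (h : ip d w e u ≤ -2) :
    Special P d w := by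
  classical
  obtain ⟨n, hn⟩ : ∃ n : ℕ, ip d w e u = -(n : ℤ) := ⟨(-(ip d w e u)).toNat, by omega⟩
  have hn2 : 2 ≤ n := by omega
  have hC0 := hC.irr.ne_zero
  obtain ⟨f, hf, hf0⟩ := exists_mem hpos
  have hfd := ((mem_VS _ _ _ _).1 hf).1
  obtain ⟨g, hg⟩ := exc_pow_dvd hP hC n d w (by omega) f hf
  have hg0 : g ≠ 0 := fun h0 => hf0 (by rw [hg, h0, mul_zero])
  have hgh := Pool.Agent.Chud.homog_of_dvd hfd hf0 (Dvd.intro_left _ hg.symm)
  have hCn : (C ^ n).IsHomogeneous (e * n) := hC.hom.pow n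
  have hdeg : e * n + g.totalDegree = d := by
    have h1 := hCn.mul hgh
    rw [← hg] at h1
    exact h1.inj_right hfd hf0
  have hCnm : C ^ n ∈ VS (fun j => aff (P j)) (fun j => n * u j) (e * n) := by
    rw [mem_VS]
    refine ⟨hCn, fun j => ?_⟩
    have h1 : ∀ m : ℕ, Van (aff (P j)) (m * u j) (C ^ m) := by
      intro m
      induction m with
      | zero =>
        rw [Nat.zero_mul]
        exact van_zero _ _
      | succ m ih =>
        rw [pow_succ, Nat.succ_mul]
        exact van_mul ih (hC.ord j).1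
    exact h1 n
  have h1 := mult_le (w := fun j => w j - n * u j) (d := g.totalDegree) hCnm (pow_ne_zero n hC0)
  have h2 : Module.finrank K ↥(VS (fun j => aff (P j)) (fun j => w j - n * u j + n * u j)
      (g.totalDegree + e * n)) ≤ Module.finrank K ↥(VS (fun j => aff (P j)) w d) := by
    have := vs_fin (fun j => aff (P j)) w d
    rw [show g.totalDegree + e * n = d by omega]
    exact Submodule.finrank_mono (vs_le fun j => by omega)
  have h3 := chi_le_dim P g.totalDegree (fun j => w j - n * u j)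
  have h4 := two_chi d w
  -- the Euler characteristic of the residual class
  have h5 : 2 * chi d w + n ^ 2 - n ≤ 2 * chi g.totalDegree (fun j => w j - n * u j) := by
    have a1 : ∀ (d : ℕ) (w : Fin s → ℕ), 2 * chi d w =
        ((d : ℤ) + 1) * (d + 2) - ∑ j, (w j : ℤ) * (w j + 1) := by
      intro d w
      rw [two_chi]
      unfold ip kk
      have : ∀ j, (w j : ℤ) * (w j + 1) = (w j : ℤ) * w j + w j := fun j => by ring
      rw [Finset.sum_congr rfl fun j _ => this j, Finset.sum_add_distrib]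
      ring
    rw [a1 d, a1 g.totalDegree]
    have a2 : ∑ j, ((w j - n * u j : ℕ) : ℤ) * ((w j - n * u j : ℕ) + 1) ≤
        ∑ j, ((w j : ℤ) - n * u j) * ((w j : ℤ) - n * u j + 1) := by
      refine Finset.sum_le_sum fun j _ => ?_
      rcases le_total (n * u j) (w j) with h6 | h6
      · rw [Nat.cast_sub h6]
        push_cast
        rfl
      · rw [Nat.sub_eq_zero_of_le h6]
        have h7 : (w j : ℤ) - n * u j ≤ 0 := by
          have : (w j : ℤ) ≤ ((n * u j : ℕ) : ℤ) := by exact_mod_cast h6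
          push_cast at this
          linarith
        have h8 : ((w j : ℤ) - n * u j) = 0 ∨ (w j : ℤ) - n * u j + 1 ≤ 0 := by omega
        rcases h8 with h8 | h8
        · rw [h8]
          simp
        · have := mul_nonneg_of_nonpos_of_nonpos h7 h8
          simpa using this
    have a3 : ∀ j, ((w j : ℤ) - n * u j) * ((w j : ℤ) - n * u j + 1) = (w j : ℤ) * (w j + 1) -
        2 * n * ((w j : ℤ) * u j) + n ^ 2 * ((u j : ℤ) * u j) - n * u j := fun j => by ring
    rw [Finset.sum_congr rfl fun j _ => a3 j, Finset.sum_sub_distrib, Finset.sum_add_distrib,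
      Finset.sum_sub_distrib, ← Finset.mul_sum, ← Finset.mul_sum, ← Finset.mul_sum] at a2
    have a4 := self_iff.1 hC.self
    have a5 := can_iff.1 hC.can
    unfold ip at a4 hn
    unfold kk at a5
    have a6 : (d : ℤ) = e * n + g.totalDegree := by exact_mod_cast hdeg.symm
    have b1 : (∑ j, (w j : ℤ) * u j) = (d : ℤ) * e + n := by linarith
    have b2 : (∑ j, (u j : ℤ) * u j) = (e : ℤ) * e + 1 := by linarith
    have b3 : (∑ j, (u j : ℤ)) = 3 * (e : ℤ) - 1 := by linarith
    rw [b1, b2, b3] at a2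
    have a7 : ((g.totalDegree : ℤ) + 1) * (g.totalDegree + 2) =
        ((d : ℤ) + 1) * (d + 2) - 2 * n * (d * e) + n ^ 2 * (e * e) - 3 * (n * e) := by
      have : (g.totalDegree : ℤ) = d - e * n := by linarith
      rw [this]
      ring
    rw [a7]
    nlinarith
  rw [special_iff]
  have h9 : (2 : ℤ) ≤ (n : ℤ) ^ 2 - n := by
    have : (2 : ℤ) ≤ n := by exact_mod_cast hn2
    nlinarith
  have h10 : (Module.finrank K ↥(VS (fun j => aff (P j)) (fun j => w j - n * u j)
    g.totalDegree) : ℤ) ≤ Module.finrank K ↥(VS (fun j => aff (P j)) w d) := by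
    exact_mod_cast h1.trans h2
  omega

end Pool.Agent.TH167.TT
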